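import Mathlib

/-!
Balanced triples of arguments of `f(t) = a t^2 + b t + a c1`: for integers with
`u v - a^2 l w = 1` the three values at `x`, `x + k`, `x + n` are `a k n`, `k m`, `n m`.
-/

set_option autoImplicit false

namespace Pool.Agent.Lib.MP_a17b09_nt.BP

/-- the polynomial -/
def ff (a b c1 t : ℤ) : ℤ := a * t ^ 2 + b * t + a * c1

def kk (a b c1 l u : ℤ) : ℤ := u ^ 2 + b * l * u + a ^ 2 * c1 * l ^ 2
def nn (a b c1 v w : ℤ) : ℤ := a ^ 2 * w ^ 2 + b * w * v + c1 * v ^ 2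
def mm (a b c1 l u v w : ℤ) : ℤ :=
  a * (u + a * w) ^ 2 + b * (u + a * w) * (a * l + v) + a * c1 * (a * l + v) ^ 2
def xx (a b c1 l u v w : ℤ) : ℤ := a * (u * w + b * l * w + c1 * l * v)

theorem id1 (a b c1 l u v w : ℤ) (h : u * v - a ^ 2 * l * w = 1) :
    ff a b c1 (xx a b c1 l u v w) = a * kk a b c1 l u * nn a b c1 v w := by
  unfold ff xx kk nn
  linear_combination (-(a * (b * (u * w + b * l * w + c1 * l * v) + c1 * (u * v - a ^ 2 * l * w + 1)))) * h

theorem id2 (a b c1 l u v w : ℤ) (h : u * v - a ^ 2 * l * w = 1) :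
    ff a b c1 (xx a b c1 l u v w + kk a b c1 l u) = kk a b c1 l u * mm a b c1 l u v w := by
  unfold ff xx kk mm
  linear_combination (-(a * (b * (u * w + b * l * w + c1 * l * v) + c1 * (u * v - a ^ 2 * l * w + 1)))
    - b * (u ^ 2 + b * l * u + a ^ 2 * c1 * l ^ 2)) * h

theorem id3 (a b c1 l u v w : ℤ) (h : u * v - a ^ 2 * l * w = 1) :
    ff a b c1 (xx a b c1 l u v w + nn a b c1 v w) = nn a b c1 v w * mm a b c1 l u v w := by
  unfold ff xx nn mm
  linear_combination (-(a * (b * (u * w + b * l * w + c1 * l * v) + c1 * (u * v - a ^ 2 * l * w + 1)))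
    - b * (a ^ 2 * w ^ 2 + b * w * v + c1 * v ^ 2)) * h

/-- `k` divides `u + (a x + b) l`. -/
theorem dvd1 (a b c1 l u v w : ℤ) (h : u * v - a ^ 2 * l * w = 1) :
    u + (a * xx a b c1 l u v w + b) * l = kk a b c1 l u * v := by
  unfold xx kk
  linear_combination (-(u + b * l)) * h

/-- polynomial versions of `n` and `m` in `u` and `v` -/
def LLp (a b c1 l u v : ℤ) : ℤ :=
  a ^ 2 * (u * v - 1) ^ 2 + b * (u * v - 1) * (a ^ 2 * l) * v + c1 * v ^ 2 * (a ^ 2 * l) ^ 2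
def MMp (a b c1 l u v : ℤ) : ℤ :=
  a * (u * (a * l + v) - 1) ^ 2 + b * (u * (a * l + v) - 1) * (a * l) * (a * l + v) +
    a * c1 * (a * l) ^ 2 * (a * l + v) ^ 2

theorem LLp_eq (a b c1 l u v w : ℤ) (h : u * v - a ^ 2 * l * w = 1) :
    LLp a b c1 l u v = (a ^ 2 * l) ^ 2 * nn a b c1 v w := by
  have e : u * v - 1 = a ^ 2 * l * w := by linarith
  unfold LLp nn
  rw [e]; ring

theorem MMp_eq (a b c1 l u v w : ℤ) (h : u * v - a ^ 2 * l * w = 1) :
    MMp a b c1 l u v = (a * l) ^ 2 * mm a b c1 l u v w := by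
  have e : u * (a * l + v) - 1 = (a * l) * (u + a * w) := by linarith
  unfold MMp mm
  rw [e]; ring

end Pool.Agent.Lib.MP_a17b09_nt.BP
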