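import Mathlib
import Pool.Agent.Lib.MP_a17b09_nt.BP.Ident

/-!
Local densities: pairs of residues modulo a prime for which one of `k`, `n`, `m` vanishes, and the
Chinese remainder theorem for pairs.
-/

set_option autoImplicit false

namespace Pool.Agent.Lib.MP_a17b09_nt.BP

open Finset

/-- a periodic family of conditions on pairs -/
def Per2 (bad : ℕ → ℕ × ℕ → Prop) : Prop :=
  ∀ q : ℕ, ∀ s : ℕ × ℕ, bad q s ↔ bad q (s.1 % q, s.2 % q)

theorem Per2.mod {bad : ℕ → ℕ × ℕ → Prop} (h : Per2 bad) {q m : ℕ} (hqm : q ∣ m) (s : ℕ × ℕ) :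
    bad q s ↔ bad q (s.1 % m, s.2 % m) := by
  rw [h q s, h q (s.1 % m, s.2 % m), Nat.mod_mod_of_dvd s.1 hqm, Nat.mod_mod_of_dvd s.2 hqm]

open Classical in
/-- number of bad pairs of residues -/
noncomputable def nb2 (bad : ℕ → ℕ × ℕ → Prop) (q : ℕ) : ℕ :=
  ((range q ×ˢ range q).filter (fun s => bad q s)).card

open Classical in
theorem card_all_bad2 (bad : ℕ → ℕ × ℕ → Prop) (hper : Per2 bad) (D : Finset ℕ)
    (hD : ∀ q ∈ D, q.Prime) :
    ((range (∏ q ∈ D, q) ×ˢ range (∏ q ∈ D, q)).filter (fun s => ∀ q ∈ D, bad q s)).card =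
      ∏ q ∈ D, nb2 bad q := by
  induction D using Finset.induction with
  | empty => simp
  | insert q D hq ih =>
    rw [Finset.prod_insert hq, Finset.prod_insert hq, ← ih (fun p hp => hD p (by simp [hp]))]
    set P := ∏ p ∈ D, p with hP
    have hqp : q.Prime := hD q (by simp)
    have hPpos : 0 < P := Finset.prod_pos (fun p hp => (hD p (by simp [hp])).pos)
    have hcop : Nat.Coprime q P := by
      rw [hP]
      apply Nat.Coprime.prod_right
      intro p hp
      exact (Nat.coprime_primes hqp (hD p (by simp [hp]))).2 (by rintro rfl; exact hq hp)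
    unfold nb2
    rw [← Finset.card_product]
    have hdvd : ∀ p ∈ D, p ∣ P := fun p hp => Finset.dvd_prod_of_mem _ hp
    apply Finset.card_bij (fun s _ => ((s.1 % q, s.2 % q), (s.1 % P, s.2 % P)))
    · intro s hs
      rw [mem_filter] at hs
      rw [mem_product, mem_filter, mem_filter, mem_product, mem_product, mem_range, mem_range,
        mem_range, mem_range]
      refine ⟨⟨⟨Nat.mod_lt _ hqp.pos, Nat.mod_lt _ hqp.pos⟩, (hper q s).1 (hs.2 q (by simp))⟩,
        ⟨⟨Nat.mod_lt _ hPpos, Nat.mod_lt _ hPpos⟩,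
          fun p hp => ((hper.mod (hdvd p hp) s).1 (hs.2 p (by simp [hp])))⟩⟩
    · intro s hs s' hs' h
      rw [mem_filter, mem_product, mem_range, mem_range] at hs hs'
      simp only [Prod.mk.injEq] at h
      have h1 : s.1 ≡ s'.1 [MOD q * P] := (Nat.modEq_and_modEq_iff_modEq_mul hcop).1 ⟨h.1.1, h.2.1⟩
      have h2 : s.2 ≡ s'.2 [MOD q * P] := (Nat.modEq_and_modEq_iff_modEq_mul hcop).1 ⟨h.1.2, h.2.2⟩
      exact Prod.ext (Nat.ModEq.eq_of_lt_of_lt h1 hs.1.1 hs'.1.1)
        (Nat.ModEq.eq_of_lt_of_lt h2 hs.1.2 hs'.1.2)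
    · rintro ⟨⟨u1, u2⟩, ⟨v1, v2⟩⟩ huv
      rw [mem_product, mem_filter, mem_filter, mem_product, mem_product, mem_range,
        mem_range, mem_range, mem_range] at huv
      obtain ⟨⟨hu, hbu⟩, ⟨hv, hbv⟩⟩ := huv
      simp only at hu hbu hv hbv
      obtain ⟨k1, hk1, hk1'⟩ := Nat.chineseRemainder hcop u1 v1
      obtain ⟨k2, hk2, hk2'⟩ := Nat.chineseRemainder hcop u2 v2
      have e1 : k1 % q = u1 := by rw [hk1]; exact Nat.mod_eq_of_lt hu.1
      have e2 : k2 % q = u2 := by rw [hk2]; exact Nat.mod_eq_of_lt hu.2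
      have e3 : k1 % P = v1 := by rw [hk1']; exact Nat.mod_eq_of_lt hv.1
      have e4 : k2 % P = v2 := by rw [hk2']; exact Nat.mod_eq_of_lt hv.2
      refine ⟨(k1 % (q * P), k2 % (q * P)), ?_, ?_⟩
      · rw [mem_filter, mem_product, mem_range, mem_range]
        refine ⟨⟨Nat.mod_lt _ (Nat.mul_pos hqp.pos hPpos), Nat.mod_lt _ (Nat.mul_pos hqp.pos hPpos)⟩, ?_⟩
        intro p hp
        rcases Finset.mem_insert.1 hp with h | h
        · subst h
          rw [← hper.mod (Dvd.intro _ rfl) (k1, k2), hper p (k1, k2)]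
          simp only [e1, e2]
          exact hbu
        · rw [← hper.mod (Dvd.dvd.mul_left (hdvd p h) q) (k1, k2), hper.mod (hdvd p h) (k1, k2)]
          simp only [e3, e4]
          exact hbv p h
      · simp only [Prod.mk.injEq, Nat.mod_mul_right_mod, Nat.mod_mul_left_mod]
        exact ⟨⟨e1, e2⟩, ⟨e3, e4⟩⟩

/-- a quadratic polynomial over a field has at most two roots -/
theorem roots_le_two {F : Type*} [Field F] [Fintype F] [DecidableEq F] (A B C : F)
    (h : A ≠ 0 ∨ (B = 0 ∧ C ≠ 0)) :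
    (univ.filter (fun x : F => A * x ^ 2 + B * x + C = 0)).card ≤ 2 := by
  by_contra hcon
  push Not at hcon
  rw [Finset.two_lt_card] at hcon
  obtain ⟨x, hx, y, hy, z, hz, hxy, hxz, hyz⟩ := hcon
  simp only [mem_filter, mem_univ, true_and] at hx hy hz
  rcases h with h | ⟨h1, h2⟩
  · have e1 : (x - y) * (A * (x + y) + B) = 0 := by linear_combination hx - hy
    have e2 : (x - z) * (A * (x + z) + B) = 0 := by linear_combination hx - hz
    have e3 : A * (x + y) + B = 0 := by
      rcases mul_eq_zero.1 e1 with h | h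
      · exact absurd (sub_eq_zero.1 h) hxy
      · exact h
    have e4 : A * (x + z) + B = 0 := by
      rcases mul_eq_zero.1 e2 with h | h
      · exact absurd (sub_eq_zero.1 h) hxz
      · exact h
    have e5 : A * (y - z) = 0 := by linear_combination e3 - e4
    rcases mul_eq_zero.1 e5 with h' | h'
    · exact h h'
    · exact hyz (sub_eq_zero.1 h')
  · by_cases hA : A = 0
    · rw [hA, h1] at hx
      simp at hx
      exact h2 hx
    · have e1 : (x - y) * (A * (x + y)) = 0 := by rw [h1] at hx hy; linear_combination hx - hy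
      have e2 : (x - z) * (A * (x + z)) = 0 := by rw [h1] at hx hz; linear_combination hx - hz
      have e3 : x + y = 0 := by
        rcases mul_eq_zero.1 e1 with h | h
        · exact absurd (sub_eq_zero.1 h) hxy
        · exact (mul_eq_zero.1 h).resolve_left hA
      have e4 : x + z = 0 := by
        rcases mul_eq_zero.1 e2 with h | h
        · exact absurd (sub_eq_zero.1 h) hxz
        · exact (mul_eq_zero.1 h).resolve_left hA
      exact hyz (by linear_combination e3 - e4)

/-- the condition `q ∣ k n m`, written with polynomials in `u`, `v` -/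
def badq (a b c1 l : ℤ) (q : ℕ) (s : ℕ × ℕ) : Prop :=
  (q : ℤ) ∣ kk a b c1 l s.1 * (LLp a b c1 l s.1 s.2 * MMp a b c1 l s.1 s.2)

theorem per2_badq (a b c1 l : ℤ) : Per2 (badq a b c1 l) := by
  intro q s
  rcases Nat.eq_zero_or_pos q with h | h
  · subst h; simp
  · haveI : NeZero q := ⟨h.ne'⟩
    unfold badq
    rw [← ZMod.intCast_zmod_eq_zero_iff_dvd, ← ZMod.intCast_zmod_eq_zero_iff_dvd]
    unfold kk LLp MMp
    push_cast
    rfl

/-- at most `6 q` bad pairs of residues -/
theorem nb2_le (a b c1 l : ℤ) (q : ℕ) (hq : q.Prime) (hqa : ¬ (q : ℤ) ∣ a) (_hql : ¬ (q : ℤ) ∣ l) :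
    nb2 (badq a b c1 l) q ≤ 6 * q := by
  classical
  haveI : Fact q.Prime := ⟨hq⟩
  have ha0 : (a : ZMod q) ≠ 0 := by
    intro h
    rw [ZMod.intCast_zmod_eq_zero_iff_dvd] at h
    exact hqa h
  -- the three sets over the field
  obtain ⟨T1, hT1⟩ : ∃ T : Finset (ZMod q × ZMod q), T = univ.filter (fun s : ZMod q × ZMod q =>
      s.1 ^ 2 + ((b : ZMod q) * l) * s.1 + (a : ZMod q) ^ 2 * c1 * l ^ 2 = 0) := ⟨_, rfl⟩
  obtain ⟨T2, hT2⟩ : ∃ T : Finset (ZMod q × ZMod q), T = univ.filter (fun s =>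
      (a : ZMod q) ^ 2 * (s.1 * s.2 - 1) ^ 2 + b * (s.1 * s.2 - 1) * (a ^ 2 * l) * s.2 +
        c1 * s.2 ^ 2 * (a ^ 2 * l) ^ 2 = 0) := ⟨_, rfl⟩
  obtain ⟨T3, hT3⟩ : ∃ T : Finset (ZMod q × ZMod q), T = univ.filter (fun s =>
      (a : ZMod q) * (s.1 * (a * l + s.2) - 1) ^ 2 + b * (s.1 * (a * l + s.2) - 1) * (a * l) * (a * l + s.2) +
        a * c1 * (a * l) ^ 2 * (a * l + s.2) ^ 2 = 0) := ⟨_, rfl⟩
  have hfib : ∀ (T : Finset (ZMod q × ZMod q)),
      (∀ y : ZMod q, (univ.filter (fun x : ZMod q => (x, y) ∈ T)).card ≤ 2) → T.card ≤ 2 * q := by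
    intro T hT
    have h1 : T.card = ∑ y : ZMod q, (T.filter (fun s => s.2 = y)).card :=
      Finset.card_eq_sum_card_fiberwise (fun s _ => mem_univ s.2)
    rw [h1]
    calc ∑ y : ZMod q, (T.filter (fun s => s.2 = y)).card ≤ ∑ y : ZMod q, 2 := by
          apply Finset.sum_le_sum
          intro y _
          refine le_trans ?_ (hT y)
          apply Finset.card_le_card_of_injOn (fun s => s.1)
          · intro s hs
            simp only [mem_filter, mem_univ, true_and, coe_filter, Set.mem_setOf_eq] at hs ⊢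
            rw [← hs.2]; exact hs.1
          · intro s hs s' hs' h
            simp only [coe_filter, Set.mem_setOf_eq] at hs hs'
            exact Prod.ext h (by rw [hs.2, hs'.2])
      _ = 2 * q := by simp [ZMod.card, mul_comm]
  have c1' : T1.card ≤ 2 * q := by
    apply hfib
    intro y
    have := roots_le_two (1 : ZMod q) (b * l) (a ^ 2 * c1 * l ^ 2) (Or.inl one_ne_zero)
    refine le_trans (Finset.card_le_card ?_) this
    intro x hx
    simp only [hT1, mem_filter, mem_univ, true_and, one_mul] at hx ⊢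
    exact hx
  have c2' : T2.card ≤ 2 * q := by
    apply hfib
    intro y
    have := roots_le_two ((a : ZMod q) ^ 2 * y ^ 2)
      (-2 * a ^ 2 * y + b * a ^ 2 * l * y ^ 2)
      (a ^ 2 - b * (a ^ 2 * l) * y + c1 * y ^ 2 * (a ^ 2 * l) ^ 2) (by
        by_cases hy : y = 0
        · right
          subst hy
          refine ⟨by ring, ?_⟩
          simp [ha0]
        · left
          exact mul_ne_zero (pow_ne_zero 2 ha0) (pow_ne_zero 2 hy))
    refine le_trans (Finset.card_le_card ?_) this
    intro x hx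
    simp only [hT2, mem_filter, mem_univ, true_and] at hx ⊢
    rw [← hx]; ring
  have c3' : T3.card ≤ 2 * q := by
    apply hfib
    intro y
    obtain ⟨g, hg⟩ : ∃ g : ZMod q, g = a * l + y := ⟨_, rfl⟩
    have := roots_le_two ((a : ZMod q) * g ^ 2)
      (-2 * a * g + b * (a * l) * g ^ 2)
      (a - b * (a * l) * g + a * c1 * (a * l) ^ 2 * g ^ 2) (by
        by_cases hy : g = 0
        · right
          rw [hy]
          refine ⟨by ring, ?_⟩
          simp [ha0]
        · left
          exact mul_ne_zero ha0 (pow_ne_zero 2 hy))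
    refine le_trans (Finset.card_le_card ?_) this
    intro x hx
    simp only [hT3, mem_filter, mem_univ, true_and] at hx ⊢
    rw [← hg] at hx
    rw [← hx]; ring
  have hmap : nb2 (badq a b c1 l) q ≤ (T1 ∪ (T2 ∪ T3)).card := by
    unfold nb2
    apply Finset.card_le_card_of_injOn (fun s : ℕ × ℕ => ((s.1 : ZMod q), (s.2 : ZMod q)))
    · intro s hs
      simp only [coe_filter, Set.mem_setOf_eq, mem_product, mem_range] at hs
      have h2 := hs.2
      unfold badq at h2
      rw [← ZMod.intCast_zmod_eq_zero_iff_dvd] at h2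
      unfold kk LLp MMp at h2
      push_cast at h2
      simp only [coe_union, Set.mem_union, hT1, hT2, hT3, coe_filter, mem_univ, true_and,
        Set.mem_setOf_eq]
      rcases mul_eq_zero.1 h2 with h | h
      · left; exact h
      · rcases mul_eq_zero.1 h with h | h
        · right; left; exact h
        · right; right; exact h
    · intro s hs s' hs' h
      simp only [coe_filter, Set.mem_setOf_eq, mem_product, mem_range] at hs hs'
      simp only [Prod.mk.injEq] at h
      have e1 := (ZMod.natCast_eq_natCast_iff' _ _ _).1 h.1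
      have e2 := (ZMod.natCast_eq_natCast_iff' _ _ _).1 h.2
      rw [Nat.mod_eq_of_lt hs.1.1, Nat.mod_eq_of_lt hs'.1.1] at e1
      rw [Nat.mod_eq_of_lt hs.1.2, Nat.mod_eq_of_lt hs'.1.2] at e2
      exact Prod.ext e1 e2
  calc nb2 (badq a b c1 l) q ≤ (T1 ∪ (T2 ∪ T3)).card := hmap
    _ ≤ T1.card + (T2 ∪ T3).card := card_union_le _ _
    _ ≤ T1.card + (T2.card + T3.card) := by
        have := card_union_le T2 T3
        omega
    _ ≤ 6 * q := by omega

end Pool.Agent.Lib.MP_a17b09_nt.BP
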