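import Mathlib
import Pool.Agent.Lib.QuadParity.Ranges

set_option autoImplicit false

open Finset

namespace Pool.Agent.Lib.MP_a17b09_nt.BP

/-- Module A: points on the modular hyperbola with both coordinates in a progression. -/
def StmtA : Prop := ∀ (l : ℕ) (_ : l.Prime) (_ : l ≠ 2) (A B s t : ZMod l) (_ : s ≠ 0) (_ : t ≠ 0)
    (K1 K2 : ℕ),
    |(((range K1 ×ˢ range K2).filter
        (fun j : ℕ × ℕ => (A + s * (j.1 : ZMod l)) * (B + t * (j.2 : ZMod l)) = 1)).card : ℝ)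
      - (K1 * K2 : ℝ) / l| ≤
      (K1 * K2 : ℝ) / l ^ 2 + 2 * (l : ℝ) ^ (3 / 4 : ℝ) *
        (((K1 : ℝ) / l + 1 + Real.log l) * ((K2 : ℝ) / l + 1 + Real.log l))

open Classical in
/-- Module B: lower bound sieve in abstract form, densities at most `6/q`. -/
def StmtB : Prop := ∃ N0 : ℕ, ∀ n : ℕ, N0 ≤ n → ∀ (S : Finset (ℕ × ℕ)) (bad : ℕ → ℕ × ℕ → Prop)
    (h : ℕ → ℝ) (X E : ℝ), 0 ≤ X → 0 ≤ E →
    (∀ q : ℕ, q.Prime → 6 < q → q ≤ 2 ^ (2 ^ n) → 0 ≤ h q ∧ h q ≤ 6 / q) →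
    (∀ D : Finset ℕ, (∀ q ∈ D, q.Prime ∧ 6 < q ∧ q ≤ 2 ^ (2 ^ n)) →
      |((S.filter (fun s => ∀ q ∈ D, bad q s)).card : ℝ) - X * ∏ q ∈ D, h q| ≤
        E * ∏ q ∈ D, (6 * (q : ℝ))) →
    X ≤ 2 ^ (7 * n) * (((S.filter (fun s => ∀ q : ℕ, q.Prime → 6 < q → q ≤ 2 ^ (2 ^ n) →
        ¬ bad q s)).card : ℝ) + E * 2 ^ (70 * 2 ^ n))

end Pool.Agent.Lib.MP_a17b09_nt.BP
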