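import Mathlib
import Pool.Agent.Lib.MP_a17b09_nt.BP.Local
import Pool.Agent.Lib.MP_a17b09_nt.BP.Stmts

/-!
Counting the pairs on the modular hyperbola in a box, with congruence conditions.
-/

set_option autoImplicit false

namespace Pool.Agent.Lib.MP_a17b09_nt.BP

open Finset

/-- the points of the sieve for a prime `l` -/
noncomputable def pts (L M l : ℕ) : Finset (ℕ × ℕ) :=
  open Classical in
  (Finset.Ico (L * l) (L * l + l) ×ˢ Finset.Ico (L * l) (L * l + l)).filter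
    (fun s => (s.1 ≡ 1 [MOD M] ∧ s.2 ≡ 1 [MOD M]) ∧ ((s.1 : ZMod l) * (s.2 : ZMod l) = 1))

/-- error bound -/
noncomputable def EE (l : ℕ) : ℝ := 7 + 2 * (l : ℝ) ^ (3 / 4 : ℝ) * (3 + Real.log l) ^ 2

theorem EE_nonneg (l : ℕ) : 0 ≤ EE l := by
  unfold EE; positivity

/-- number of terms of a progression in an interval -/
theorem mem_prog (l R e j : ℕ) (he : e < R) : j < (l + (R - 1 - e)) / R ↔ e + R * j < l := by
  have hR : 0 < R := by omega
  rw [Nat.lt_iff_add_one_le, Nat.le_div_iff_mul_le hR]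
  have h1 : (j + 1) * R = R * j + R := by ring
  rw [h1]
  omega

theorem num_prog (l R e : ℕ) (he : e < R) :
    |(((l + (R - 1 - e)) / R : ℕ) : ℝ) - (l : ℝ) / R| ≤ 1 := by
  have hR : 0 < R := by omega
  have hRr : (0 : ℝ) < R := by exact_mod_cast hR
  set K := (l + (R - 1 - e)) / R with hK
  have h1 : K * R ≤ l + (R - 1 - e) := Nat.div_mul_le_self _ _
  have h2 : l + (R - 1 - e) < (K + 1) * R := by
    exact Nat.lt_mul_of_div_lt (Nat.lt_succ_self _) hR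
  have h3 : (K : ℝ) * R ≤ l + R := by
    have : K * R ≤ l + R := by omega
    exact_mod_cast this
  have h4 : (l : ℝ) ≤ (K + 1) * R := by
    have : l ≤ (K + 1) * R := by omega
    exact_mod_cast this
  rw [abs_le]
  constructor
  · have : (l : ℝ) / R ≤ K + 1 := by rw [div_le_iff₀ hRr]; exact h4
    linarith
  · have : (K : ℝ) - 1 ≤ l / R := by rw [le_div_iff₀ hRr]; linarith
    linarith

open Classical in
/-- one class -/
theorem class_count (hA : StmtA) (l : ℕ) (hl : l.Prime) (hl2 : l ≠ 2) (R : ℕ) (hR : 0 < R)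
    (hRl : ¬ l ∣ R) (U ρ1 ρ2 : ℕ) :
    |(((Finset.Ico U (U + l) ×ˢ Finset.Ico U (U + l)).filter
      (fun s => (s.1 ≡ ρ1 [MOD R] ∧ s.2 ≡ ρ2 [MOD R]) ∧ ((s.1 : ZMod l) * (s.2 : ZMod l) = 1))).card : ℝ)
      - (l : ℝ) / (R : ℝ) ^ 2| ≤ EE l := by
  haveI : Fact l.Prime := ⟨hl⟩
  -- the offsets
  obtain ⟨e, he⟩ : ∃ e : ℕ → ℕ, ∀ ρ, e ρ = (ρ + R * U - U) % R := ⟨_, fun _ => rfl⟩
  have heR : ∀ ρ, e ρ < R := fun ρ => by rw [he]; exact Nat.mod_lt _ hR
  have hUR : U ≤ R * U := Nat.le_mul_of_pos_left U hR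
  have hemod : ∀ ρ, U + e ρ ≡ ρ [MOD R] := by
    intro ρ
    rw [he]
    have h1 : U + (ρ + R * U - U) % R ≡ U + (ρ + R * U - U) [MOD R] :=
      Nat.ModEq.add_left _ (Nat.mod_modEq _ _)
    have h2 : U + (ρ + R * U - U) = ρ + R * U := by omega
    rw [h2] at h1
    refine h1.trans ?_
    unfold Nat.ModEq
    rw [Nat.add_mul_mod_self_left]
  obtain ⟨K, hK⟩ : ∃ K : ℕ → ℕ, ∀ ρ, K ρ = (l + (R - 1 - e ρ)) / R := ⟨_, fun _ => rfl⟩
  have hmain := hA l hl hl2 ((U + e ρ1 : ℕ) : ZMod l) ((U + e ρ2 : ℕ) : ZMod l) (R : ZMod l) (R : ZMod l)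
    (by rw [Ne, ZMod.natCast_eq_zero_iff]; exact hRl)
    (by rw [Ne, ZMod.natCast_eq_zero_iff]; exact hRl) (K ρ1) (K ρ2)
  have hcard : ((Finset.Ico U (U + l) ×ˢ Finset.Ico U (U + l)).filter
      (fun s => (s.1 ≡ ρ1 [MOD R] ∧ s.2 ≡ ρ2 [MOD R]) ∧ ((s.1 : ZMod l) * (s.2 : ZMod l) = 1))).card =
      ((range (K ρ1) ×ˢ range (K ρ2)).filter
        (fun j : ℕ × ℕ => (((U + e ρ1 : ℕ) : ZMod l) + (R : ZMod l) * (j.1 : ZMod l)) *
          (((U + e ρ2 : ℕ) : ZMod l) + (R : ZMod l) * (j.2 : ZMod l)) = 1)).card := by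
    symm
    apply Finset.card_bij (fun j _ => (U + e ρ1 + R * j.1, U + e ρ2 + R * j.2))
    · intro j hj
      rw [mem_filter, mem_product, mem_range, mem_range, hK, hK, mem_prog _ _ _ _ (heR _),
        mem_prog _ _ _ _ (heR _)] at hj
      rw [mem_filter, mem_product, Finset.mem_Ico, Finset.mem_Ico]
      refine ⟨⟨⟨by omega, by omega⟩, ⟨by omega, by omega⟩⟩, ⟨?_, ?_⟩, ?_⟩
      · refine Nat.ModEq.trans ?_ (hemod ρ1)
        unfold Nat.ModEq
        rw [Nat.add_mul_mod_self_left]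
      · refine Nat.ModEq.trans ?_ (hemod ρ2)
        unfold Nat.ModEq
        rw [Nat.add_mul_mod_self_left]
      · have := hj.2
        push_cast at this ⊢
        exact this
    · intro j _ j' _ h
      simp only [Prod.mk.injEq] at h
      have h1 : R * j.1 = R * j'.1 := by omega
      have h2 : R * j.2 = R * j'.2 := by omega
      exact Prod.ext (Nat.eq_of_mul_eq_mul_left hR h1) (Nat.eq_of_mul_eq_mul_left hR h2)
    · intro s hs
      rw [mem_filter, mem_product, Finset.mem_Ico, Finset.mem_Ico] at hs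
      obtain ⟨⟨⟨a1, a2⟩, ⟨a3, a4⟩⟩, ⟨a5, a6⟩, a7⟩ := hs
      have key : ∀ (u ρ : ℕ), U ≤ u → u ≡ ρ [MOD R] → ∃ j, u = U + e ρ + R * j := by
        intro u ρ hu hm
        have h1 : u ≡ U + e ρ [MOD R] := hm.trans (hemod ρ).symm
        have h2 : u - U ≡ e ρ [MOD R] := by
          apply Nat.ModEq.add_left_cancel' U
          rw [Nat.add_sub_cancel' hu]
          exact h1
        have h3 : (u - U) % R = e ρ := by
          rw [h2, Nat.mod_eq_of_lt (heR ρ)]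
        refine ⟨(u - U) / R, ?_⟩
        have h4 := Nat.mod_add_div (u - U) R
        rw [h3] at h4
        omega
      obtain ⟨j1, hj1⟩ := key s.1 ρ1 a1 a5
      obtain ⟨j2, hj2⟩ := key s.2 ρ2 a3 a6
      refine ⟨(j1, j2), ?_, ?_⟩
      · rw [mem_filter, mem_product, mem_range, mem_range, hK, hK, mem_prog _ _ _ _ (heR _),
          mem_prog _ _ _ _ (heR _)]
        refine ⟨⟨by simp only; omega, by simp only; omega⟩, ?_⟩
        rw [hj1, hj2] at a7
        push_cast at a7 ⊢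
        exact a7
      · exact Prod.ext hj1.symm hj2.symm
  rw [hcard]
  have hk1 := num_prog l R (e ρ1) (heR _)
  have hk2 := num_prog l R (e ρ2) (heR _)
  rw [← hK] at hk1 hk2
  have hRr : (1 : ℝ) ≤ R := by exact_mod_cast hR
  have hl1 : (1 : ℝ) ≤ l := by exact_mod_cast hl.one_lt.le
  have hl0 : (0 : ℝ) < l := by linarith
  obtain ⟨k1, hk1'⟩ : ∃ k : ℝ, k = (K ρ1 : ℝ) := ⟨_, rfl⟩
  obtain ⟨k2, hk2'⟩ : ∃ k : ℝ, k = (K ρ2 : ℝ) := ⟨_, rfl⟩
  obtain ⟨g, hg⟩ : ∃ g : ℝ, g = (l : ℝ) / R := ⟨_, rfl⟩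
  rw [← hk1', ← hg] at hk1
  rw [← hk2', ← hg] at hk2
  rw [← hk1', ← hk2'] at hmain
  have hk10 : 0 ≤ k1 := by rw [hk1']; positivity
  have hk20 : 0 ≤ k2 := by rw [hk2']; positivity
  have hg0 : 0 ≤ g := by rw [hg]; positivity
  have hgl : g ≤ l := by rw [hg]; exact div_le_self hl0.le hRr
  rw [abs_le] at hk1 hk2
  have hk1l : k1 ≤ 2 * l := by linarith [hk1.2]
  have hk2l : k2 ≤ 2 * l := by linarith [hk2.2]
  have e1 : (l : ℝ) / (R : ℝ) ^ 2 = g * g / l := by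
    rw [hg]; field_simp
  have e2 : |k1 * k2 / l - g * g / l| ≤ 3 := by
    have e3 : k1 * k2 / l - g * g / l = (k1 * k2 - g * g) / l := by ring
    rw [e3, abs_div, abs_of_pos hl0, div_le_iff₀ hl0]
    have e4 : k1 * k2 - g * g = (k1 - g) * (k2 - g) + g * (k1 - g) + g * (k2 - g) := by ring
    rw [e4]
    have a1 : |k1 - g| ≤ 1 := abs_le.2 hk1
    have a2 : |k2 - g| ≤ 1 := abs_le.2 hk2
    calc |(k1 - g) * (k2 - g) + g * (k1 - g) + g * (k2 - g)| ≤
        |(k1 - g) * (k2 - g)| + |g * (k1 - g)| + |g * (k2 - g)| := abs_add_three _ _ _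
      _ ≤ 1 * 1 + g * 1 + g * 1 := by
          rw [abs_mul, abs_mul, abs_mul, abs_of_nonneg hg0]
          gcongr
      _ ≤ 3 * l := by linarith
  have e5 : k1 * k2 / (l : ℝ) ^ 2 ≤ 4 := by
    rw [div_le_iff₀ (by positivity)]
    nlinarith
  have e6 : (k1 / l + 1 + Real.log l) * (k2 / l + 1 + Real.log l) ≤ (3 + Real.log l) ^ 2 := by
    have hlog : 0 ≤ Real.log l := Real.log_nonneg hl1
    have b1 : k1 / l ≤ 2 := by rw [div_le_iff₀ hl0]; linarith
    have b2 : k2 / l ≤ 2 := by rw [div_le_iff₀ hl0]; linarith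
    have b3 : 0 ≤ k1 / l := by positivity
    have b4 : 0 ≤ k2 / l := by positivity
    rw [sq]
    apply mul_le_mul <;> linarith
  have e7 : 2 * (l : ℝ) ^ (3 / 4 : ℝ) * ((k1 / l + 1 + Real.log l) * (k2 / l + 1 + Real.log l)) ≤
      2 * (l : ℝ) ^ (3 / 4 : ℝ) * (3 + Real.log l) ^ 2 := by
    apply mul_le_mul_of_nonneg_left e6
    positivity
  rw [e1]
  rw [abs_le] at hmain e2 ⊢
  unfold EE
  constructor <;> linarith [hmain.1, hmain.2, e2.1, e2.2]

end Pool.Agent.Lib.MP_a17b09_nt.BP
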