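import Pool.Agent.Lib.MP_a17b09_nt.BP.Stmts

/-!
Abstract lower bound sieve of Brun-Hooley type for a finite set of objects.
-/

set_option autoImplicit false

namespace Pool.Agent.Lib.MP_a17b09_nt.BP

open Finset Pool.Agent.Lib.MP_369a91_nt Pool.Agent.Lib.QuadParity

namespace Sv

/-- The general lower bound. -/
theorem sieve_count {α : Type} (S : Finset α) (Pr : ℕ → Finset ℕ) (r : ℕ → ℕ)
    (hdis : ∀ t, Disjoint (PiU Pr t) (Pr t)) (hr : ∀ t, Even (r t))
    (bad : ℕ → α → Prop) (G : ℕ → ℝ) (G0 : ∀ q, 0 ≤ G q)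
    (y : ℕ → ℝ) (hy : ∀ i, ∑ q ∈ Pr i, G q ≤ y i)
    (h gg : ℕ → ℝ) (gg0 : ∀ q, 0 ≤ gg q) (T : ℕ)
    (hh0 : ∀ q ∈ PiU Pr T, 0 ≤ h q) (hhg : ∀ q ∈ PiU Pr T, h q ≤ gg q)
    (hg1 : ∀ t, ∀ q ∈ Pr t, gg q ≤ 1)
    (v : ℕ → ℝ) (hv : ∀ t, 0 < v t)
    (hV : ∀ t, v t ≤ ∏ q ∈ Pr t, (1 - gg q)) (ε : ℕ → ℝ)
    (hε : ∀ t < T, es (Pr t) gg (r t + 1) ≤ ε t * v t)
    (hεsum : ∑ i ∈ Finset.range T, ε i ≤ 1) (X E : ℝ) (hX : 0 ≤ X) (hE : 0 ≤ E)
    (hcnt : open Classical in ∀ D ⊆ PiU Pr T,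
      |((S.filter (fun s => ∀ q ∈ D, bad q s)).card : ℝ) - X * ∏ q ∈ D, h q| ≤
        E * ∏ q ∈ D, G q) :
    open Classical in
    X * ((∏ i ∈ Finset.range T, v i) * (1 - ∑ i ∈ Finset.range T, ε i)) -
      E * ∏ i ∈ Finset.range T, (1 + y i) ^ (r i + 1) ≤
    ((S.filter (fun s => ∀ q ∈ PiU Pr T, ¬ bad q s)).card : ℝ) := by
  classical
  set PI := PiU Pr T with hPI
  have hPImem : ∀ q ∈ PI, ∃ i, q ∈ Pr i := by
    intro q hq
    rw [hPI, PiU, Finset.mem_biUnion] at hq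
    obtain ⟨i, _, hi⟩ := hq
    exact ⟨i, hi⟩
  -- the density function
  set h' : ℕ → ℝ := fun q => if q ∈ PI then h q else 0 with hh
  set χ : α → ℕ → ℝ := fun s q => if bad q s then 1 else 0 with hχ
  have hχ0 : ∀ s q, 0 ≤ χ s q := by intro s q; simp only [hχ]; split_ifs <;> norm_num
  have hχ1 : ∀ s q, χ s q ≤ 1 := by intro s q; simp only [hχ]; split_ifs <;> norm_num
  -- lower bound for the count
  have hcount : ∑ s ∈ S, ev (Lw Pr r T) PI (χ s) ≤
      ((S.filter (fun s => ∀ q ∈ PI, ¬ bad q s)).card : ℝ) := by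
    rw [Finset.card_filter]
    push_cast
    apply Finset.sum_le_sum
    intro s _
    refine (sieve_ineq Pr r hdis hr (χ s) (hχ0 s) (hχ1 s) T).1.trans ?_
    split_ifs with hs
    · apply Finset.prod_le_one
      · intro q _; linarith [hχ1 s q]
      · intro q _; linarith [hχ0 s q]
    · push Not at hs
      obtain ⟨q, hq, hqs⟩ := hs
      apply le_of_eq
      apply Finset.prod_eq_zero hq
      simp only [hχ, if_pos hqs]
      norm_num
  -- evaluation of the sum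
  have hsum : ∑ s ∈ S, ev (Lw Pr r T) PI (χ s) =
      ∑ D ∈ PI.powerset, Lw Pr r T D *
        ((S.filter (fun s => ∀ q ∈ D, bad q s)).card : ℝ) := by
    unfold ev
    rw [Finset.sum_comm]
    apply Finset.sum_congr rfl
    intro D _
    rw [← Finset.mul_sum]
    congr 1
    rw [Finset.card_filter]
    push_cast
    apply Finset.sum_congr rfl
    intro s _
    split_ifs with hs
    · apply Finset.prod_eq_one
      intro q hq
      simp only [hχ, if_pos (hs q hq)]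
    · push Not at hs
      obtain ⟨q, hq, hqs⟩ := hs
      apply Finset.prod_eq_zero hq
      simp only [hχ, if_neg hqs]
  have hmain : X * ev (Lw Pr r T) PI h' - E * ev (Bw Pr r T) PI G ≤
      ∑ s ∈ S, ev (Lw Pr r T) PI (χ s) := by
    rw [hsum]
    unfold ev
    rw [Finset.mul_sum, Finset.mul_sum, ← Finset.sum_sub_distrib]
    apply Finset.sum_le_sum
    intro D hD
    rw [Finset.mem_powerset] at hD
    have h1 := hcnt D hD
    have h2 : ∏ q ∈ D, h' q = ∏ q ∈ D, h q := by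
      apply Finset.prod_congr rfl
      intro q hq
      simp only [hh, if_pos (hD hq)]
    rw [h2]
    have h4 := abs_Lw_le_Bw Pr r T D
    set c := ((S.filter (fun s => ∀ q ∈ D, bad q s)).card : ℝ) with hc
    set m := X * ∏ q ∈ D, h q with hm
    have h5 : Lw Pr r T D * (m - c) ≤ Bw Pr r T D * (E * ∏ q ∈ D, G q) := by
      calc Lw Pr r T D * (m - c) ≤ |Lw Pr r T D * (m - c)| := le_abs_self _
        _ = |Lw Pr r T D| * |m - c| := abs_mul _ _
        _ ≤ Bw Pr r T D * (E * ∏ q ∈ D, G q) := by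
          apply mul_le_mul h4 _ (abs_nonneg _) (Bw_nonneg _ _ _ _)
          rw [abs_sub_comm]
          exact h1
    have h6 : X * (Lw Pr r T D * ∏ q ∈ D, h q) = Lw Pr r T D * m := by
      rw [hm]; ring
    have h7 : E * (Bw Pr r T D * ∏ q ∈ D, G q) = Bw Pr r T D * (E * ∏ q ∈ D, G q) := by ring
    rw [h6, h7]
    linarith
  have hh0' : ∀ q, 0 ≤ h' q := by
    intro q; simp only [hh]; split_ifs with hq
    · exact hh0 q hq
    · exact le_refl _
  have hhg' : ∀ q, h' q ≤ gg q := by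
    intro q
    simp only [hh]
    split_ifs with hq
    · exact hhg q hq
    · exact gg0 q
  have hh1 : ∀ q, h' q ≤ 1 := by
    intro q
    by_cases hq : q ∈ PI
    · obtain ⟨i, hi⟩ := hPImem q hq
      exact (hhg' q).trans (hg1 i q hi)
    · simp only [hh, if_neg hq]; norm_num
  obtain ⟨m1, m2⟩ := mean_lower' Pr r hdis hr h' hh0' hh1 v hv (fun t => by
      refine (hV t).trans ?_
      apply Finset.prod_le_prod
      · intro q hq; linarith [hg1 t q hq]
      · intro q hq; linarith [hhg' q]) T ε (fun t ht => by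
      refine le_trans ?_ (hε t ht)
      unfold es
      apply Finset.sum_le_sum
      intro D hD
      apply Finset.prod_le_prod
      · intro q _; exact hh0' q
      · intro q _; exact hhg' q) T le_rfl
  obtain ⟨b0, b1⟩ := ev_Bw_le Pr r hdis G G0 y hy T
  have h7 : (∏ i ∈ Finset.range T, v i) * (1 - ∑ i ∈ Finset.range T, ε i) ≤
      ev (Lw Pr r T) PI h' :=
    (mul_le_mul_of_nonneg_right m1 (by linarith)).trans m2
  have h8 := mul_le_mul_of_nonneg_left h7 hX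
  have h9 := mul_le_mul_of_nonneg_left b1 hE
  linarith

section

variable (n0 : ℕ)

/-- prime ranges -/
def P6 : ℕ → Finset ℕ
  | 0 => (Finset.Ioc 6 (Bd n0 0)).filter Nat.Prime
  | (i + 1) => (Finset.Ioc (Bd n0 i) (Bd n0 (i + 1))).filter Nat.Prime

theorem P6_sub (hn0 : 14 ≤ n0) (i : ℕ) :
    P6 n0 i ⊆ (Finset.Ioc 6 (Bd n0 i)).filter Nat.Prime := by
  intro q hq
  cases i with
  | zero => exact hq
  | succ i =>
    simp only [P6, Finset.mem_filter, Finset.mem_Ioc] at hq ⊢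
    have := Bd_ge n0 hn0 i
    exact ⟨⟨by omega, hq.1.2⟩, hq.2⟩

theorem P6_gt (hn0 : 14 ≤ n0) (i : ℕ) (q : ℕ) (hq : q ∈ P6 n0 i) : 6 < q := by
  have h1 := Finset.mem_filter.1 (P6_sub n0 hn0 i hq)
  rw [Finset.mem_Ioc] at h1
  exact h1.1.1

theorem P6_le (hn0 : 14 ≤ n0) (i : ℕ) (q : ℕ) (hq : q ∈ P6 n0 i) : q ≤ Bd n0 i := by
  have h1 := Finset.mem_filter.1 (P6_sub n0 hn0 i hq)
  rw [Finset.mem_Ioc] at h1
  exact h1.1.2

theorem P6_card (hn0 : 14 ≤ n0) (i : ℕ) : (P6 n0 i).card ≤ Bd n0 i := by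
  calc (P6 n0 i).card ≤ ((Finset.Ioc 6 (Bd n0 i)).filter Nat.Prime).card :=
        Finset.card_le_card (P6_sub n0 hn0 i)
    _ ≤ (Finset.Ioc 6 (Bd n0 i)).card := Finset.card_filter_le _ _
    _ ≤ Bd n0 i := by rw [Nat.card_Ioc]; omega

theorem PiU_P6 (hn0 : 14 ≤ n0) (t : ℕ) :
    PiU (P6 n0) (t + 1) = (Finset.Ioc 6 (Bd n0 t)).filter Nat.Prime := by
  classical
  induction t with
  | zero =>
    rw [PiU_succ]
    simp [PiU, P6]
  | succ t ih =>
    rw [PiU_succ, ih]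
    ext q
    simp only [P6, Finset.mem_union, Finset.mem_filter, Finset.mem_Ioc]
    have h1 := Bd_mono n0 t
    have h2 := Bd_ge n0 hn0 t
    constructor
    · rintro (⟨⟨a1, a2⟩, a3⟩ | ⟨⟨a1, a2⟩, a3⟩)
      · exact ⟨⟨a1, by omega⟩, a3⟩
      · exact ⟨⟨by omega, a2⟩, a3⟩
    · rintro ⟨⟨a1, a2⟩, a3⟩
      by_cases h : q ≤ Bd n0 t
      · left; exact ⟨⟨a1, h⟩, a3⟩
      · right; exact ⟨⟨by omega, a2⟩, a3⟩

theorem P6_disjoint (hn0 : 14 ≤ n0) (t : ℕ) : Disjoint (PiU (P6 n0) t) (P6 n0 t) := by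
  classical
  cases t with
  | zero => simp [PiU]
  | succ t =>
    rw [PiU_P6 n0 hn0, Finset.disjoint_left]
    intro q hq hq'
    simp only [P6, Finset.mem_filter, Finset.mem_Ioc] at hq hq'
    omega

theorem sum_P6_le (hn0 : 14 ≤ n0) (i : ℕ) : ∑ q ∈ P6 n0 (i + 1), (6 : ℝ) / q ≤ 4.38 := by
  have h1 := sum_Pr_le n0 hn0 i
  have h2 : P6 n0 (i + 1) = Pr n0 (i + 1) := rfl
  rw [h2]
  have h3 : ∑ q ∈ Pr n0 (i + 1), (6 : ℝ) / q = 1.5 * ∑ q ∈ Pr n0 (i + 1), (4 : ℝ) / q := by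
    rw [Finset.mul_sum]
    apply Finset.sum_congr rfl
    intro q _
    ring
  rw [h3]
  linarith

theorem exp_bound6 : (1 / 82 : ℝ) ≤ Real.exp (-(1.0011 * 4.38)) := by
  rw [Real.exp_neg, one_div]
  apply inv_anti₀ (Real.exp_pos _)
  have h7 := Real.exp_one_lt_d9
  have h1 : Real.exp 5 ≤ 148.42 := by
    calc Real.exp 5 = Real.exp 1 ^ 5 := by rw [← Real.exp_nat_mul]; norm_num
      _ ≤ 2.7182818286 ^ 5 := pow_le_pow_left₀ (Real.exp_pos _).le h7.le 5
      _ ≤ 148.42 := by norm_num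
  have h2 : Real.exp (1.0011 * 4.38) * Real.exp 0.6151 ≤ Real.exp 5 := by
    rw [← Real.exp_add]
    apply Real.exp_le_exp.2
    norm_num
  -- exp 0.6151 >= 1.84
  have h3 : (1.84 : ℝ) ≤ Real.exp 0.6151 := by
    have h4 := Real.quadratic_le_exp_of_nonneg (show (0 : ℝ) ≤ 0.6151 / 4 by norm_num)
    have h5 : Real.exp 0.6151 = Real.exp (0.6151 / 4) ^ 4 := by
      rw [← Real.exp_nat_mul]; norm_num
    rw [h5]
    calc (1.84 : ℝ) ≤ (1 + 0.6151 / 4 + (0.6151 / 4) ^ 2 / 2) ^ 4 := by norm_num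
      _ ≤ _ := pow_le_pow_left₀ (by norm_num) h4 4
  have h4 := Real.exp_pos (1.0011 * 4.38 : ℝ)
  nlinarith

theorem prod_P6_ge (hn0 : 14 ≤ n0) (i : ℕ) :
    (1 / 82 : ℝ) ≤ ∏ q ∈ P6 n0 (i + 1), (1 - 6 / (q : ℝ)) := by
  have h1 := sum_P6_le n0 hn0 i
  calc (1 / 82 : ℝ) ≤ Real.exp (-(1.0011 * 4.38)) := exp_bound6
    _ ≤ Real.exp (∑ q ∈ P6 n0 (i + 1), -(1.0011 * (6 / (q : ℝ)))) := by
        apply Real.exp_le_exp.2
        rw [Finset.sum_neg_distrib, ← Finset.mul_sum]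
        nlinarith
    _ = ∏ q ∈ P6 n0 (i + 1), Real.exp (-(1.0011 * (6 / (q : ℝ)))) := Real.exp_sum _ _
    _ ≤ ∏ q ∈ P6 n0 (i + 1), (1 - 6 / (q : ℝ)) := by
        apply Finset.prod_le_prod
        · intro q _; exact (Real.exp_pos _).le
        · intro q hq
          simp only [P6, Finset.mem_filter, Finset.mem_Ioc] at hq
          have hb := Bd_ge n0 hn0 i
          have hq2 : (65536 : ℝ) ≤ q := by
            have : 65536 ≤ q := by omega
            exact_mod_cast this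
          apply one_sub_ge _ (by positivity)
          rw [div_le_div_iff₀ (by linarith) (by norm_num)]
          linarith

theorem prod_P60_ge (hn0 : 14 ≤ n0) :
    (1 / 7 : ℝ) ^ (Bd n0 0) ≤ ∏ q ∈ P6 n0 0, (1 - 6 / (q : ℝ)) := by
  calc (1 / 7 : ℝ) ^ (Bd n0 0) ≤ (1 / 7 : ℝ) ^ (P6 n0 0).card := by
        apply pow_le_pow_of_le_one (by norm_num) (by norm_num) (P6_card n0 hn0 0)
    _ = ∏ q ∈ P6 n0 0, (1 / 7 : ℝ) := by rw [Finset.prod_const]
    _ ≤ _ := by
        apply Finset.prod_le_prod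
        · intro q _; norm_num
        · intro q hq
          have h1 := P6_gt n0 hn0 0 q hq
          have h2 : (7 : ℝ) ≤ q := by exact_mod_cast h1
          have h3 : 6 / (q : ℝ) ≤ 6 / 7 := div_le_div_of_nonneg_left (by norm_num) (by norm_num) h2
          linarith

end

theorem fact_bound6 (m : ℕ) :
    (4.38 : ℝ) ^ (15 + 2 * m) / ((15 + 2 * m).factorial : ℝ) ≤ 0.27 * 0.08 ^ m * (1 / 82) := by
  induction m with
  | zero =>
    norm_num [Nat.factorial]
  | succ m ih =>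
    have h1 : 15 + 2 * (m + 1) = (15 + 2 * m) + 1 + 1 := by ring
    rw [h1, Nat.factorial_succ, Nat.factorial_succ]
    push_cast
    have hf : (0 : ℝ) < ((15 + 2 * m).factorial : ℝ) := by exact_mod_cast Nat.factorial_pos _
    rw [div_le_iff₀ hf] at ih
    rw [div_le_iff₀ (by positivity)]
    calc (4.38 : ℝ) ^ (15 + 2 * m + 1 + 1) = 4.38 ^ (15 + 2 * m) * (4.38 ^ 2) := by ring
      _ ≤ (0.27 * 0.08 ^ m * (1 / 82) * ((15 + 2 * m).factorial : ℝ)) * (4.38 ^ 2) :=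
        mul_le_mul_of_nonneg_right ih (by norm_num)
      _ ≤ (0.27 * 0.08 ^ m * (1 / 82) * ((15 + 2 * m).factorial : ℝ)) *
          (0.08 * ((15 + 2 * m + 1 + 1) * (15 + 2 * m + 1))) := by
        apply mul_le_mul_of_nonneg_left _ (by positivity)
        have : (0 : ℝ) ≤ m := by positivity
        nlinarith
      _ = _ := by ring

theorem eps_sum6 (T : ℕ) : ∑ i ∈ Finset.range T, (0.27 : ℝ) * 0.08 ^ (T - 1 - i) ≤ 0.3 := by
  have h := eps_sum T
  have h2 : ∑ i ∈ Finset.range T, (0.27 : ℝ) * 0.08 ^ (T - 1 - i) =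
      (1 / 3) * ∑ i ∈ Finset.range T, (0.81 : ℝ) * 0.08 ^ (T - 1 - i) := by
    rw [Finset.mul_sum]
    apply Finset.sum_congr rfl
    intro i _
    ring
  rw [h2]
  linarith

theorem F_sum6 (T : ℕ) :
    ∑ i ∈ Finset.range T, 2 ^ (i + 1) * (15 + 2 * (T - 1 - i)) ≤ 34 * 2 ^ T := by
  induction T with
  | zero => simp
  | succ T ih =>
    rw [Finset.sum_range_succ]
    have h3 : ∑ i ∈ Finset.range T, 2 ^ (i + 1) * (15 + 2 * (T + 1 - 1 - i)) =
        ∑ i ∈ Finset.range T, 2 ^ (i + 1) * (15 + 2 * (T - 1 - i)) +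
        2 * ∑ i ∈ Finset.range T, 2 ^ (i + 1) := by
      rw [Finset.mul_sum, ← Finset.sum_add_distrib]
      apply Finset.sum_congr rfl
      intro i hi
      rw [Finset.mem_range] at hi
      have h4 : T + 1 - 1 - i = (T - 1 - i) + 1 := by omega
      rw [h4]; ring
    have h4 : ∀ t : ℕ, ∑ i ∈ Finset.range t, 2 ^ (i + 1) + 2 = 2 ^ (t + 1) := by
      intro t
      induction t with
      | zero => simp
      | succ t ih =>
        rw [Finset.sum_range_succ, pow_succ 2 (t + 1)]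
        omega
    have h5 := h4 T
    have h6 : T + 1 - 1 - T = 0 := by omega
    rw [h3, h6]
    have h7 : (2 : ℕ) ^ (T + 1) = 2 * 2 ^ T := by ring
    rw [h7] at h5 ⊢
    omega

theorem G_sum6 (T : ℕ) : ∑ i ∈ Finset.range T, (15 + 2 * (T - 1 - i)) ≤ 15 * T + 2 * T * T := by
  calc ∑ i ∈ Finset.range T, (15 + 2 * (T - 1 - i)) ≤ ∑ i ∈ Finset.range T, (15 + 2 * T) :=
        Finset.sum_le_sum (fun i _ => by omega)
    _ = 15 * T + 2 * T * T := by
      rw [Finset.sum_const, Finset.card_range, smul_eq_mul]; ring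

/-- truncation levels -/
def rr6 (n0 T : ℕ) : ℕ → ℕ
  | 0 => 2 * Bd n0 0
  | (i + 1) => 14 + 2 * (T - 1 - i)

theorem err_bound6 (n0 : ℕ) (hn0 : 14 ≤ n0) (T : ℕ) :
    ∏ i ∈ Finset.range (T + 1), (1 + 6 * (Bd n0 i : ℝ) ^ 2) ^ (rr6 n0 T i + 1) ≤
      ((1 + 6 * Bd n0 0 ^ 2) ^ (2 * Bd n0 0 + 1) : ℕ) *
        (2 : ℝ) ^ (68 * 2 ^ (n0 + T) + 3 * (15 * T + 2 * T * T)) := by
  rw [Finset.prod_range_succ', mul_comm]
  push_cast
  apply mul_le_mul
  · simp [rr6]
  · calc ∏ i ∈ Finset.range T, (1 + 6 * (Bd n0 (i + 1) : ℝ) ^ 2) ^ (rr6 n0 T (i + 1) + 1) ≤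
        ∏ i ∈ Finset.range T, (2 : ℝ) ^ ((2 * 2 ^ (n0 + (i + 1)) + 3) * (15 + 2 * (T - 1 - i))) := by
          apply Finset.prod_le_prod
          · intro i _; positivity
          · intro i _
            have h1 : rr6 n0 T (i + 1) + 1 = 15 + 2 * (T - 1 - i) := by simp only [rr6]; omega
            rw [h1, pow_mul]
            apply pow_le_pow_left₀ (by positivity)
            rw [pow_add, mul_comm 2 (2 ^ (n0 + (i + 1))), pow_mul 2 (2 ^ (n0 + (i + 1))) 2]
            have h2 := Bd_ge n0 hn0 (i + 1)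
            have h3 : (65536 : ℝ) ≤ (Bd n0 (i + 1) : ℝ) := by exact_mod_cast h2
            have h4 : (Bd n0 (i + 1) : ℝ) = 2 ^ (2 ^ (n0 + (i + 1))) := by
              unfold Bd; push_cast; rfl
            rw [← h4]
            nlinarith
      _ = (2 : ℝ) ^ (∑ i ∈ Finset.range T, (2 * 2 ^ (n0 + (i + 1)) + 3) * (15 + 2 * (T - 1 - i))) := by
          rw [Finset.prod_pow_eq_pow_sum]
      _ ≤ _ := by
          apply pow_le_pow_right₀ (by norm_num)
          have h1 : ∑ i ∈ Finset.range T, (2 * 2 ^ (n0 + (i + 1)) + 3) * (15 + 2 * (T - 1 - i)) =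
              2 * (2 ^ n0 * ∑ i ∈ Finset.range T, 2 ^ (i + 1) * (15 + 2 * (T - 1 - i))) +
              3 * ∑ i ∈ Finset.range T, (15 + 2 * (T - 1 - i)) := by
            rw [Finset.mul_sum, Finset.mul_sum, Finset.mul_sum, ← Finset.sum_add_distrib]
            apply Finset.sum_congr rfl
            intro i _
            rw [pow_add]; ring
          rw [h1]
          have h2 := F_sum6 T
          have h3 := G_sum6 T
          have h4 : 2 ^ n0 * ∑ i ∈ Finset.range T, 2 ^ (i + 1) * (15 + 2 * (T - 1 - i)) ≤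
              2 ^ n0 * (34 * 2 ^ T) := Nat.mul_le_mul_left _ h2
          have h5 : 2 ^ n0 * (34 * 2 ^ T) = 34 * 2 ^ (n0 + T) := by rw [pow_add]; ring
          omega
  · apply Finset.prod_nonneg
    intro i _; positivity
  · positivity

/-- The sieve bound in raw form. -/
theorem sieve_raw (n0 : ℕ) (hn0 : 14 ≤ n0) (T : ℕ) {α : Type} (S : Finset α)
    (bad : ℕ → α → Prop) (h : ℕ → ℝ) (X E : ℝ) (hX : 0 ≤ X) (hE : 0 ≤ E)
    (hh : ∀ q : ℕ, q.Prime → 6 < q → q ≤ Bd n0 T → 0 ≤ h q ∧ h q ≤ 6 / q)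
    (hcnt : open Classical in ∀ D : Finset ℕ, (∀ q ∈ D, q.Prime ∧ 6 < q ∧ q ≤ Bd n0 T) →
      |((S.filter (fun s => ∀ q ∈ D, bad q s)).card : ℝ) - X * ∏ q ∈ D, h q| ≤
        E * ∏ q ∈ D, (6 * (q : ℝ))) :
    open Classical in
    X * ((1 / 7) ^ (Bd n0 0) * (1 / 82) ^ T * 0.1) -
      E * (((1 + 6 * Bd n0 0 ^ 2) ^ (2 * Bd n0 0 + 1) : ℕ) *
        (2 : ℝ) ^ (68 * 2 ^ (n0 + T) + 3 * (15 * T + 2 * T * T))) ≤
    ((S.filter (fun s => ∀ q : ℕ, q.Prime → 6 < q → q ≤ Bd n0 T → ¬ bad q s)).card : ℝ) := by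
  classical
  set v : ℕ → ℝ := fun i => if i = 0 then (1 / 7) ^ (Bd n0 0) else 1 / 82 with hv
  set ε : ℕ → ℝ := fun i => if i = 0 then 0 else 0.27 * 0.08 ^ (T - i) with hε
  have hsum : ∑ i ∈ Finset.range (T + 1), ε i ≤ 0.3 := by
    rw [Finset.sum_range_succ']
    simp only [hε, if_true, add_zero, Nat.add_eq_zero_iff, one_ne_zero, and_false, if_false]
    refine le_trans (le_of_eq ?_) (eps_sum6 T)
    apply Finset.sum_congr rfl
    intro i _
    congr 2
    omega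
  have hprodv : ∏ i ∈ Finset.range (T + 1), v i = (1 / 7) ^ (Bd n0 0) * (1 / 82) ^ T := by
    rw [Finset.prod_range_succ']
    simp only [hv, if_true, Nat.add_eq_zero_iff, one_ne_zero, and_false, if_false,
      Finset.prod_const, Finset.card_range]
    ring
  have hPI : ∀ q ∈ PiU (P6 n0) (T + 1), q.Prime ∧ 6 < q ∧ q ≤ Bd n0 T := by
    intro q hq
    rw [PiU_P6 n0 hn0, Finset.mem_filter, Finset.mem_Ioc] at hq
    exact ⟨hq.2, hq.1.1, hq.1.2⟩
  have hmain := sieve_count S (P6 n0) (rr6 n0 T) (P6_disjoint n0 hn0) (by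
      intro t
      cases t with
      | zero => exact even_two_mul _
      | succ t => simp only [rr6]; exact (by decide : Even 14).add (even_two_mul _))
    bad (fun q => 6 * (q : ℝ)) (fun q => by positivity)
    (fun i => 6 * (Bd n0 i : ℝ) ^ 2) (by
      intro i
      have h1 : ∀ q ∈ P6 n0 i, 6 * (q : ℝ) ≤ 6 * (Bd n0 i : ℝ) := by
        intro q hq
        have h2 : (q : ℝ) ≤ Bd n0 i := by exact_mod_cast P6_le n0 hn0 i q hq
        linarith
      refine (Finset.sum_le_sum h1).trans ?_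
      rw [Finset.sum_const, nsmul_eq_mul]
      have := P6_card n0 hn0 i
      have h2 : ((P6 n0 i).card : ℝ) ≤ (Bd n0 i : ℝ) := by exact_mod_cast this
      have h3 : (0 : ℝ) ≤ Bd n0 i := by positivity
      nlinarith)
    h (fun q => 6 / (q : ℝ)) (fun q => by positivity) (T + 1)
    (fun q hq => (hh q (hPI q hq).1 (hPI q hq).2.1 (hPI q hq).2.2).1)
    (fun q hq => (hh q (hPI q hq).1 (hPI q hq).2.1 (hPI q hq).2.2).2)
    (fun t q hq => by
      have h1 := P6_gt n0 hn0 t q hq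
      have h2 : (6 : ℝ) ≤ q := by exact_mod_cast h1.le
      rw [div_le_one (by linarith)]
      exact h2) v (by
      intro t
      simp only [hv]
      split_ifs <;> positivity) (by
      intro t
      simp only [hv]
      cases t with
      | zero => rw [if_pos rfl]; exact prod_P60_ge n0 hn0
      | succ t => rw [if_neg (by omega)]; exact prod_P6_ge n0 hn0 t) ε (by
      intro t ht
      cases t with
      | zero =>
        simp only [hε, if_true, zero_mul]
        apply le_of_eq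
        apply es_eq_zero
        have := P6_card n0 hn0 0
        simp only [rr6]
        omega
      | succ t =>
        simp only [hε, hv]
        rw [if_neg (by omega), if_neg (by omega)]
        have h1 := es_le (P6 n0 (t + 1)) (fun q => 6 / (q : ℝ)) (fun q => by positivity)
          (rr6 n0 T (t + 1) + 1)
        have h2 := sum_P6_le n0 hn0 t
        have hr : rr6 n0 T (t + 1) + 1 = 15 + 2 * (T - 1 - t) := by simp only [rr6]; omega
        rw [hr] at h1 ⊢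
        refine h1.trans ?_
        have h3 : (∑ q ∈ P6 n0 (t + 1), 6 / (q : ℝ)) ^ (15 + 2 * (T - 1 - t)) ≤
            4.38 ^ (15 + 2 * (T - 1 - t)) := by
          apply pow_le_pow_left₀ _ h2
          exact Finset.sum_nonneg (fun q _ => by positivity)
        have h4 := fact_bound6 (T - 1 - t)
        have h5 : T - (t + 1) = T - 1 - t := by omega
        rw [h5]
        refine le_trans ?_ h4
        exact div_le_div_of_nonneg_right h3 (by positivity)) (by linarith) X E hX hE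
    (fun D hD => hcnt D (fun q hq => hPI q (hD hq)))
  rw [hprodv, PiU_P6 n0 hn0] at hmain
  have herr := err_bound6 n0 hn0 T
  refine le_trans ?_ (hmain.trans (le_of_eq ?_))
  swap
  · congr 2
    ext s
    simp only [Finset.mem_filter, Finset.mem_Ioc]
    apply and_congr_right
    intro _
    constructor
    · intro h q hq h4 hqB hbad
      exact h q ⟨⟨h4, hqB⟩, hq⟩ hbad
    · intro h q hq hbad
      exact h q hq.2 hq.1.1 hq.1.2 hbad
  have h6 : X * ((1 / 7) ^ (Bd n0 0) * (1 / 82) ^ T * 0.1) ≤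
      X * ((1 / 7) ^ (Bd n0 0) * (1 / 82) ^ T * (1 - ∑ i ∈ Finset.range (T + 1), ε i)) := by
    apply mul_le_mul_of_nonneg_left _ hX
    apply mul_le_mul_of_nonneg_left _ (by positivity)
    linarith
  have h7 := mul_le_mul_of_nonneg_left herr hE
  linarith

theorem cube_le_two_pow (n : ℕ) (hn : 10 ≤ n) : n ^ 3 ≤ 2 ^ n := by
  induction n, hn using Nat.le_induction with
  | base => norm_num
  | succ n hn ih =>
    have h1 : (n + 1) ^ 3 ≤ 2 * n ^ 3 := by nlinarith [sq_nonneg n, Nat.mul_le_mul hn hn]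
    calc (n + 1) ^ 3 ≤ 2 * n ^ 3 := h1
      _ ≤ 2 * 2 ^ n := Nat.mul_le_mul_left _ ih
      _ = 2 ^ (n + 1) := by ring

end Sv

open Sv in
/-- Module B. -/
theorem stmtB : StmtB := by
  classical
  obtain ⟨n0, hn0⟩ : ∃ n0 : ℕ, n0 = 14 := ⟨_, rfl⟩
  obtain ⟨B, hB⟩ : ∃ B : ℕ, B = Bd n0 0 := ⟨_, rfl⟩
  obtain ⟨C, hC⟩ : ∃ C : ℕ, C = (1 + 6 * B ^ 2) ^ (2 * B + 1) := ⟨_, rfl⟩
  have h1 : Filter.Tendsto (fun T : ℕ => ((128 : ℝ) / 82) ^ T) Filter.atTop Filter.atTop :=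
    tendsto_pow_atTop_atTop_of_one_lt (by norm_num)
  obtain ⟨T0, hT0⟩ := Filter.eventually_atTop.1
    (h1.eventually_ge_atTop (1 / ((1 / 7 : ℝ) ^ B * 0.1)))
  refine ⟨T0 + n0 + C + 100, ?_⟩
  intro n hn S bad h X E hX hE hh hcnt
  obtain ⟨T, hT⟩ : ∃ T : ℕ, n = n0 + T := ⟨n - n0, by omega⟩
  have hBd : Bd n0 T = 2 ^ (2 ^ n) := by unfold Bd; rw [hT]
  have hraw := sieve_raw n0 (by omega) T S bad h X E hX hE (by rw [hBd]; exact hh)
    (by rw [hBd]; exact hcnt)
  rw [hBd, ← hB, ← hC, ← hT] at hraw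
  set Cnt : ℝ := ((S.filter (fun s => ∀ q : ℕ, q.Prime → 6 < q → q ≤ 2 ^ (2 ^ n) →
        ¬ bad q s)).card : ℝ) with hCnt
  have hTT := hT0 T (by omega)
  have hc0 : (0 : ℝ) < (1 / 7 : ℝ) ^ B * 0.1 := by positivity
  -- main term
  have hmain : X ≤ 2 ^ (7 * n) * (X * ((1 / 7) ^ B * (1 / 82) ^ T * 0.1)) := by
    rw [div_le_iff₀ hc0] at hTT
    have h2 : (2 : ℝ) ^ (7 * n) = 2 ^ (7 * n0) * 128 ^ T := by
      rw [hT, mul_add, pow_add, pow_mul 2 7 T]; norm_num
    have h3 : (1 : ℝ) ≤ 2 ^ (7 * n0) := one_le_pow₀ (by norm_num)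
    have h4 : (128 : ℝ) ^ T * (1 / 82) ^ T = (128 / 82) ^ T := by
      rw [← mul_pow]; norm_num
    calc X = 1 * X := by ring
      _ ≤ ((128 / 82) ^ T * ((1 / 7 : ℝ) ^ B * 0.1)) * X :=
          mul_le_mul_of_nonneg_right hTT hX
      _ = 1 * ((128 / 82) ^ T * ((1 / 7 : ℝ) ^ B * 0.1)) * X := by ring
      _ ≤ 2 ^ (7 * n0) * ((128 / 82) ^ T * ((1 / 7 : ℝ) ^ B * 0.1)) * X := by
          apply mul_le_mul_of_nonneg_right _ hX
          exact mul_le_mul_of_nonneg_right h3 (by positivity)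
      _ = _ := by rw [h2, ← h4]; ring
  -- error term
  have herr : ((C : ℝ) * 2 ^ (68 * 2 ^ n + 3 * (15 * T + 2 * T * T))) ≤
      (2 : ℝ) ^ (70 * 2 ^ n) := by
    have hC1 : (C : ℝ) ≤ 2 ^ C := by exact_mod_cast (Nat.lt_two_pow_self).le
    calc ((C : ℝ) * 2 ^ (68 * 2 ^ n + 3 * (15 * T + 2 * T * T))) ≤
        (2 ^ C * 2 ^ (68 * 2 ^ n + 3 * (15 * T + 2 * T * T))) := by
          exact mul_le_mul_of_nonneg_right hC1 (by positivity)
      _ = (2 : ℝ) ^ (C + (68 * 2 ^ n + 3 * (15 * T + 2 * T * T))) := by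
          rw [pow_add _ C]
      _ ≤ _ := by
          apply pow_le_pow_right₀ (by norm_num)
          have h5 := cube_le_two_pow n (by omega)
          have hTn : T ≤ n := by omega
          have hCn : C ≤ n := by omega
          have h100 : 100 ≤ n := by omega
          have h6 : T * T ≤ n * n := Nat.mul_le_mul hTn hTn
          have h7 : 100 * (n * n) ≤ n ^ 3 := by
            calc 100 * (n * n) ≤ n * (n * n) := Nat.mul_le_mul_right _ h100
              _ = n ^ 3 := by ring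
          have h8 : 100 * n ≤ n * n := Nat.mul_le_mul_right _ h100
          nlinarith
  have h9 : (0 : ℝ) ≤ 2 ^ (7 * n) := by positivity
  have h10 : X * ((1 / 7) ^ B * (1 / 82) ^ T * 0.1) ≤ Cnt + E * 2 ^ (70 * 2 ^ n) := by
    have h11 := mul_le_mul_of_nonneg_left herr hE
    linarith
  exact hmain.trans (mul_le_mul_of_nonneg_left h10 h9)

end Pool.Agent.Lib.MP_a17b09_nt.BP
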