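import Mathlib
import Pool.Agent.Lib.MP_a17b09_nt.BP.Class

/-!
The sieve for a fixed prime `l`.
-/

set_option autoImplicit false

namespace Pool.Agent.Lib.MP_a17b09_nt.BP

open Finset

open Classical in
theorem count_D (hA : StmtA) (bad : ℕ → ℕ × ℕ → Prop) (hper : Per2 bad) (l : ℕ) (hl : l.Prime)
    (hl2 : l ≠ 2) (L M : ℕ) (hM : 0 < M) (hlM : ¬ l ∣ M) (D : Finset ℕ)
    (hD : ∀ q ∈ D, q.Prime ∧ ¬ q ∣ M ∧ q ≠ l) :
    |(((pts L M l).filter (fun s => ∀ q ∈ D, bad q s)).card : ℝ) -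
      (l : ℝ) / (M : ℝ) ^ 2 * ∏ q ∈ D, ((nb2 bad q : ℝ) / (q : ℝ) ^ 2)| ≤
      EE l * ∏ q ∈ D, (nb2 bad q : ℝ) := by
  set P := ∏ p ∈ D, p with hP
  have hPpos : 0 < P := Finset.prod_pos (fun p hp => (hD p hp).1.pos)
  have hdvd : ∀ p ∈ D, p ∣ P := fun p hp => Finset.dvd_prod_of_mem _ hp
  have hcop : Nat.Coprime M P := by
    rw [hP]
    apply Nat.Coprime.prod_right
    intro p hp
    exact ((Nat.Prime.coprime_iff_not_dvd (hD p hp).1).2 (hD p hp).2.1).symm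
  have hRpos : 0 < M * P := Nat.mul_pos hM hPpos
  have hRl : ¬ l ∣ M * P := by
    intro h
    rcases (Nat.Prime.dvd_mul hl).1 h with h | h
    · exact hlM h
    · rw [hP, Prime.dvd_finset_prod_iff hl.prime] at h
      obtain ⟨p, hp, hlp⟩ := h
      exact (hD p hp).2.2 ((Nat.prime_dvd_prime_iff_eq hl (hD p hp).1).1 hlp).symm
  set A := (range P ×ˢ range P).filter (fun s => ∀ q ∈ D, bad q s) with hA'
  have hAcard : A.card = ∏ q ∈ D, nb2 bad q := card_all_bad2 bad hper D (fun q hq => (hD q hq).1)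
  have h1 : ((pts L M l).filter (fun s => ∀ q ∈ D, bad q s)).card =
      ∑ v ∈ A, (((pts L M l).filter (fun s => ∀ q ∈ D, bad q s)).filter
        (fun s => (s.1 % P, s.2 % P) = v)).card := by
    apply Finset.card_eq_sum_card_fiberwise
    intro s hs
    simp only [coe_filter, Set.mem_setOf_eq] at hs
    simp only [hA', coe_filter, Set.mem_setOf_eq, mem_product, mem_range]
    exact ⟨⟨Nat.mod_lt _ hPpos, Nat.mod_lt _ hPpos⟩, fun q hq => (hper.mod (hdvd q hq) s).1 (hs.2 q hq)⟩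
  have h2 : ∀ v ∈ A, |((((pts L M l).filter (fun s => ∀ q ∈ D, bad q s)).filter
        (fun s => (s.1 % P, s.2 % P) = v)).card : ℝ) - (l : ℝ) / ((M * P : ℕ) : ℝ) ^ 2| ≤ EE l := by
    intro v hv
    rw [hA', mem_filter, mem_product, mem_range, mem_range] at hv
    obtain ⟨ρ1, hρ1⟩ := Nat.chineseRemainder hcop 1 v.1
    obtain ⟨ρ2, hρ2⟩ := Nat.chineseRemainder hcop 1 v.2
    have h3 := class_count hA l hl hl2 (M * P) hRpos hRl (L * l) ρ1 ρ2
    have key : ∀ (u ρ w : ℕ), w < P → (ρ ≡ 1 [MOD M] ∧ ρ ≡ w [MOD P]) →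
        ((u ≡ 1 [MOD M] ∧ u % P = w) ↔ u ≡ ρ [MOD M * P]) := by
      intro u ρ w hw hρ
      rw [← Nat.modEq_and_modEq_iff_modEq_mul hcop]
      constructor
      · rintro ⟨a1, a2⟩
        refine ⟨a1.trans hρ.1.symm, Nat.ModEq.trans ?_ hρ.2.symm⟩
        rw [Nat.ModEq, a2, Nat.mod_eq_of_lt hw]
      · rintro ⟨a1, a2⟩
        refine ⟨a1.trans hρ.1, ?_⟩
        have := a2.trans hρ.2
        rw [Nat.ModEq, Nat.mod_eq_of_lt hw] at this
        exact this
    have h4 : ((pts L M l).filter (fun s => ∀ q ∈ D, bad q s)).filter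
        (fun s => (s.1 % P, s.2 % P) = v) =
        (Finset.Ico (L * l) (L * l + l) ×ˢ Finset.Ico (L * l) (L * l + l)).filter
        (fun s => (s.1 ≡ ρ1 [MOD M * P] ∧ s.2 ≡ ρ2 [MOD M * P]) ∧ ((s.1 : ZMod l) * (s.2 : ZMod l) = 1)) := by
      ext s
      unfold pts
      simp only [mem_filter]
      constructor
      · rintro ⟨⟨⟨a1, ⟨a2, a3⟩, a4⟩, a5⟩, a6⟩
        rw [Prod.ext_iff] at a6
        exact ⟨a1, ⟨(key s.1 ρ1 v.1 hv.1.1 hρ1).1 ⟨a2, a6.1⟩, (key s.2 ρ2 v.2 hv.1.2 hρ2).1 ⟨a3, a6.2⟩⟩, a4⟩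
      · rintro ⟨a1, ⟨a2, a3⟩, a4⟩
        obtain ⟨b1, b2⟩ := (key s.1 ρ1 v.1 hv.1.1 hρ1).2 a2
        obtain ⟨b3, b4⟩ := (key s.2 ρ2 v.2 hv.1.2 hρ2).2 a3
        have b5 : (s.1 % P, s.2 % P) = v := Prod.ext b2 b4
        refine ⟨⟨⟨a1, ⟨b1, b3⟩, a4⟩, ?_⟩, b5⟩
        intro q hq
        rw [hper.mod (hdvd q hq) s, b5]
        exact hv.2 q hq
    rw [h4]
    exact h3
  rw [h1]
  push_cast
  have h3 : (l : ℝ) / (M : ℝ) ^ 2 * ∏ q ∈ D, ((nb2 bad q : ℝ) / (q : ℝ) ^ 2) =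
      ∑ v ∈ A, (l : ℝ) / ((M * P : ℕ) : ℝ) ^ 2 := by
    rw [Finset.sum_const, hAcard, Finset.prod_div_distrib, nsmul_eq_mul, hP, Finset.prod_pow]
    push_cast
    rw [mul_pow]
    field_simp
  rw [h3, ← Finset.sum_sub_distrib]
  refine (Finset.abs_sum_le_sum_abs _ _).trans ?_
  calc _ ≤ ∑ v ∈ A, EE l := Finset.sum_le_sum h2
    _ = EE l * ∏ q ∈ D, (nb2 bad q : ℝ) := by
      rw [Finset.sum_const, hAcard, nsmul_eq_mul, mul_comm]
      push_cast
      rfl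

open Classical in
/-- the sifted set -/
noncomputable def sft (a b c1 : ℤ) (L M l n : ℕ) : Finset (ℕ × ℕ) :=
  (pts L M l).filter (fun s => ∀ q : ℕ, q.Prime → 6 < q → q ≤ 2 ^ (2 ^ n) → ¬ q ∣ M →
    ¬ badq a b c1 l q s)

open Classical in
theorem sifted_lower (hA : StmtA) (hB : StmtB) : ∃ N0 : ℕ, ∀ n : ℕ, N0 ≤ n →
    ∀ (a b c1 : ℤ) (L M l : ℕ), 0 < M → (∀ q : ℕ, q.Prime → (q : ℤ) ∣ a → q ∣ M) → l.Prime →
    ¬ l ∣ M → 2 ^ (2 ^ n) < l →
    (l : ℝ) / (M : ℝ) ^ 2 ≤ 2 ^ (7 * n) * (((sft a b c1 L M l n).card : ℝ) + EE l * 2 ^ (70 * 2 ^ n)) := by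
  obtain ⟨N0, hN0⟩ := hB
  refine ⟨N0, ?_⟩
  intro n hn a b c1 L M l hM haM hl hlM hln
  have hl2 : l ≠ 2 := by
    intro h
    rw [h] at hln
    have : 2 ^ 1 ≤ 2 ^ (2 ^ n) := Nat.pow_le_pow_right (by norm_num) Nat.one_le_two_pow
    omega
  have hnb : ∀ q : ℕ, q.Prime → 6 < q → q ≤ 2 ^ (2 ^ n) → ¬ q ∣ M →
      nb2 (badq a b c1 l) q ≤ 6 * q := by
    intro q hq h6 hqn hqM
    apply nb2_le a b c1 l q hq (fun h => hqM (haM q hq h))
    intro h
    have h1 : q ∣ l := by exact_mod_cast h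
    have h2 := (Nat.prime_dvd_prime_iff_eq hq hl).1 h1
    omega
  obtain ⟨bd, hbd⟩ : ∃ bd : ℕ → ℕ × ℕ → Prop, ∀ q s, bd q s ↔ (¬ q ∣ M ∧ badq a b c1 l q s) :=
    ⟨_, fun _ _ => Iff.rfl⟩
  have h := hN0 n hn (pts L M l) bd
    (fun q => if q ∣ M then 0 else (nb2 (badq a b c1 l) q : ℝ) / (q : ℝ) ^ 2) ((l : ℝ) / (M : ℝ) ^ 2) (EE l)
    (by positivity) (EE_nonneg l) (by
      intro q hq h6 hqn
      have hq0 : (0 : ℝ) < q := by exact_mod_cast hq.pos
      split_ifs with hqM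
      · exact ⟨le_refl _, by positivity⟩
      · refine ⟨by positivity, ?_⟩
        have h1 := hnb q hq h6 hqn hqM
        have h2 : (nb2 (badq a b c1 l) q : ℝ) ≤ 6 * q := by exact_mod_cast h1
        rw [div_le_div_iff₀ (by positivity) hq0]
        nlinarith) (by
      intro D hD
      by_cases hall : ∀ q ∈ D, ¬ q ∣ M
      · have h1 := count_D hA (badq a b c1 l) (per2_badq a b c1 l) l hl hl2 L M hM hlM D (by
          intro q hq
          refine ⟨(hD q hq).1, hall q hq, ?_⟩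
          have := (hD q hq).2.2
          omega)
        have h2 : (pts L M l).filter (fun s => ∀ q ∈ D, bd q s) =
            (pts L M l).filter (fun s => ∀ q ∈ D, badq a b c1 l q s) := by
          apply Finset.filter_congr
          intro s _
          exact ⟨fun h q hq => ((hbd q s).1 (h q hq)).2, fun h q hq => (hbd q s).2 ⟨hall q hq, h q hq⟩⟩
        have h3 : ∏ q ∈ D, (if q ∣ M then (0 : ℝ) else (nb2 (badq a b c1 l) q : ℝ) / (q : ℝ) ^ 2) =
            ∏ q ∈ D, ((nb2 (badq a b c1 l) q : ℝ) / (q : ℝ) ^ 2) := by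
          apply Finset.prod_congr rfl
          intro q hq
          rw [if_neg (hall q hq)]
        rw [h2, h3]
        refine h1.trans ?_
        apply mul_le_mul_of_nonneg_left _ (EE_nonneg l)
        apply Finset.prod_le_prod
        · intro q _; positivity
        · intro q hq
          exact_mod_cast hnb q (hD q hq).1 (hD q hq).2.1 (hD q hq).2.2 (hall q hq)
      · push Not at hall
        obtain ⟨q, hq, hqM⟩ := hall
        have h2 : (pts L M l).filter (fun s => ∀ q ∈ D, bd q s) = ∅ := by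
          apply Finset.filter_eq_empty_iff.2
          intro s _ hs
          exact ((hbd q s).1 (hs q hq)).1 hqM
        have h3 : ∏ q ∈ D, (if q ∣ M then (0 : ℝ) else (nb2 (badq a b c1 l) q : ℝ) / (q : ℝ) ^ 2) = 0 := by
          apply Finset.prod_eq_zero hq
          rw [if_pos hqM]
        rw [h2, h3]
        simp only [card_empty, Nat.cast_zero, mul_zero, sub_zero, abs_zero]
        have := EE_nonneg l
        exact mul_nonneg this (Finset.prod_nonneg (fun q _ => by positivity)))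
  have h4 : (pts L M l).filter (fun s => ∀ q : ℕ, q.Prime → 6 < q → q ≤ 2 ^ (2 ^ n) →
        ¬ bd q s) = sft a b c1 L M l n := by
    unfold sft
    apply Finset.filter_congr
    intro s _
    constructor
    · intro h q h1 h2 h3 h4 h5
      exact h q h1 h2 h3 ((hbd q s).2 ⟨h4, h5⟩)
    · intro h q h1 h2 h3 h4
      exact h q h1 h2 h3 ((hbd q s).1 h4).1 ((hbd q s).1 h4).2
  rw [h4] at h
  exact h

end Pool.Agent.Lib.MP_a17b09_nt.BP
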