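import Pool.Agent.Lib.MP_a17b09_nt.BP.Stmts
import Pool.Agent.Lib.MP_0e0027_nt.Kloosterman

/-!
# Points on the modular hyperbola with both coordinates in a progression
-/

set_option autoImplicit false

open Finset

namespace Pool.Agent.Lib.MP_a17b09_nt.BP

open Pool.Agent.Lib.MP_0e0027_nt

section

variable {l : ℕ} [Fact l.Prime]

local instance instNeZeroHyp : NeZero l := ⟨(Fact.out : l.Prime).ne_zero⟩

/-- indicator of the hyperbola -/
noncomputable def hyp (A B s t x y : ZMod l) : ℂ := if (A + s * x) * (B + t * y) = 1 then 1 else 0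

theorem hyp_inner (A B s t : ZMod l) (hs : s ≠ 0) (ht : t ≠ 0) (m1 m2 : ZMod l) :
    ∑ x : ZMod l, ∑ y : ZMod l, hyp A B s t x y *
      ((ZMod.stdAddChar (m1 * x) : ℂ) * ZMod.stdAddChar (m2 * y)) =
    ZMod.stdAddChar (-(m1 * s⁻¹ * A + m2 * t⁻¹ * B)) * Kl (m1 * s⁻¹) (m2 * t⁻¹) := by
  have hss : s⁻¹ * s = 1 := inv_mul_cancel₀ hs
  have htt : t⁻¹ * t = 1 := inv_mul_cancel₀ ht
  have h1 : ∑ x : ZMod l, ∑ y : ZMod l, hyp A B s t x y *
      ((ZMod.stdAddChar (m1 * x) : ℂ) * ZMod.stdAddChar (m2 * y)) =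
      ∑ p ∈ univ.filter (fun p : ZMod l × ZMod l => (A + s * p.1) * (B + t * p.2) = 1),
        ((ZMod.stdAddChar (m1 * p.1) : ℂ) * ZMod.stdAddChar (m2 * p.2)) := by
    rw [sum_filter, Fintype.sum_prod_type]
    refine sum_congr rfl fun x _ => sum_congr rfl fun y _ => ?_
    unfold hyp
    split_ifs <;> simp
  rw [h1]
  unfold Kl
  rw [mul_sum]
  refine sum_bij' (fun p hp => (⟨A + s * p.1, B + t * p.2, (mem_filter.1 hp).2, by
      rw [mul_comm]; exact (mem_filter.1 hp).2⟩ : (ZMod l)ˣ))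
    (fun a _ => (s⁻¹ * ((a : ZMod l) - A), t⁻¹ * (((a⁻¹ : (ZMod l)ˣ) : ZMod l) - B)))
    (fun _ _ => mem_univ _) ?_ ?_ ?_ ?_
  · intro a _
    rw [mem_filter]
    refine ⟨mem_univ _, ?_⟩
    have e1 : A + s * (s⁻¹ * ((a : ZMod l) - A)) = a := by
      linear_combination ((a : ZMod l) - A) * hss
    have e2 : B + t * (t⁻¹ * (((a⁻¹ : (ZMod l)ˣ) : ZMod l) - B)) =
        ((a⁻¹ : (ZMod l)ˣ) : ZMod l) := by
      linear_combination (((a⁻¹ : (ZMod l)ˣ) : ZMod l) - B) * htt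
    simp only
    rw [e1, e2]
    exact a.mul_inv
  · intro p hp
    ext
    · simp only
      linear_combination p.1 * hss
    · simp only [Units.inv_mk]
      linear_combination p.2 * htt
  · intro a _
    ext
    simp only
    linear_combination ((a : ZMod l) - A) * hss
  · intro p hp
    rw [← AddChar.map_add_eq_mul, ← AddChar.map_add_eq_mul]
    congr 1
    simp only [Units.inv_mk]
    linear_combination (-(m1 * p.1)) * hss - (m2 * p.2) * htt

theorem hyp_fourier (A B s t : ZMod l) (hs : s ≠ 0) (ht : t ≠ 0) (K1 K2 : ℕ) :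
    ∑ j1 ∈ range K1, ∑ j2 ∈ range K2, hyp A B s t (j1 : ZMod l) (j2 : ZMod l) =
    (1 / (l : ℂ) ^ 2) * ∑ m1 : ZMod l, ∑ m2 : ZMod l, gam K1 m1 * gam K2 m2 *
      (ZMod.stdAddChar (-(m1 * s⁻¹ * A + m2 * t⁻¹ * B)) * Kl (m1 * s⁻¹) (m2 * t⁻¹)) := by
  have h1 : ∀ x : ZMod l, ∑ j2 ∈ range K2, hyp A B s t x (j2 : ZMod l) =
      (1 / (l : ℂ)) * ∑ m2 : ZMod l, gam K2 m2 *
        ∑ y : ZMod l, hyp A B s t x y * ZMod.stdAddChar (m2 * y) := fun x =>
    sum_range_eq K2 (fun y => hyp A B s t x y)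
  have h2 := sum_range_eq K1 (fun x : ZMod l => ∑ j2 ∈ range K2, hyp A B s t x (j2 : ZMod l))
  rw [h2]
  simp only [← hyp_inner A B s t hs ht]
  have h3 : ∀ m1 : ZMod l, gam K1 m1 * ∑ x : ZMod l,
      (∑ j2 ∈ range K2, hyp A B s t x (j2 : ZMod l)) * (ZMod.stdAddChar (m1 * x) : ℂ) =
      (1 / (l : ℂ)) * ∑ m2 : ZMod l, gam K1 m1 * gam K2 m2 * ∑ x : ZMod l, ∑ y : ZMod l,
        hyp A B s t x y * ((ZMod.stdAddChar (m1 * x) : ℂ) * ZMod.stdAddChar (m2 * y)) := by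
    intro m1
    simp only [h1, mul_sum, sum_mul]
    rw [sum_comm]
    refine sum_congr rfl fun m2 _ => sum_congr rfl fun x _ => sum_congr rfl fun y _ => ?_
    ring
  rw [sum_congr rfl (fun m1 _ => h3 m1), ← mul_sum, ← mul_assoc]
  congr 1
  field_simp

theorem Kl_symm (u v : ZMod l) : Kl u v = Kl v u := by
  unfold Kl
  apply Fintype.sum_equiv (Equiv.inv (ZMod l)ˣ)
  intro a
  congr 1
  simp only [Equiv.inv_apply, inv_inv]
  ring

theorem Kl_prime_bound_aux (hl : l ≠ 2) (u v : ZMod l) (hu : u ≠ 0) :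
    ‖Kl u v‖ ≤ 2 * (l : ℝ) ^ (3 / 4 : ℝ) := by
  have hp : l.Prime := Fact.out
  have h := Kl_bound (hp.odd_of_ne_two hl) u.val v
  rw [ZMod.natCast_zmod_val] at h
  have hg : Nat.gcd u.val l = 1 := by
    rw [Nat.gcd_comm]
    apply (Nat.Prime.coprime_iff_not_dvd hp).2
    intro hd
    apply hu
    have := Nat.eq_zero_of_dvd_of_lt hd (ZMod.val_lt u)
    rwa [ZMod.val_eq_zero] at this
  have hd : (Nat.divisors l).card = 2 := by
    rw [Nat.Prime.divisors hp, card_pair hp.one_lt.ne]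
  rw [hg, hd] at h
  have hl0 : (0 : ℝ) < l := by exact_mod_cast hp.pos
  have h2 : ‖Kl u v‖ ^ 4 ≤ (2 * (l : ℝ) ^ (3 / 4 : ℝ)) ^ 4 := by
    have e : ((l : ℝ) ^ (3 / 4 : ℝ)) ^ 4 = (l : ℝ) ^ 3 := by
      rw [← Real.rpow_natCast, ← Real.rpow_mul hl0.le, ← Real.rpow_natCast]; norm_num
    rw [mul_pow, e]
    have : (0 : ℝ) < (l : ℝ) ^ 3 := by positivity
    norm_num at h ⊢
    linarith
  exact le_of_pow_le_pow_left₀ (by norm_num) (by positivity) h2

theorem Kl_prime_bound (hl : l ≠ 2) (u v : ZMod l) (huv : u ≠ 0 ∨ v ≠ 0) :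
    ‖Kl u v‖ ≤ 2 * (l : ℝ) ^ (3 / 4 : ℝ) := by
  rcases huv with h | h
  · exact Kl_prime_bound_aux hl u v h
  · rw [Kl_symm]; exact Kl_prime_bound_aux hl v u h

theorem Kl_zero : Kl (0 : ZMod l) 0 = (l : ℂ) - 1 := by
  unfold Kl
  have hp : l.Prime := Fact.out
  simp only [zero_mul, add_zero, AddChar.map_zero_eq_one, sum_const, card_univ, nsmul_eq_mul,
    mul_one, ZMod.card_units_eq_totient, Nat.totient_prime hp]
  rw [Nat.cast_sub hp.one_le]
  simp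

theorem stmtA_aux (hl : l ≠ 2) (A B s t : ZMod l) (hs : s ≠ 0) (ht : t ≠ 0)
    (K1 K2 : ℕ) :
    |(((range K1 ×ˢ range K2).filter
        (fun j : ℕ × ℕ => (A + s * (j.1 : ZMod l)) * (B + t * (j.2 : ZMod l)) = 1)).card : ℝ)
      - (K1 * K2 : ℝ) / l| ≤
      (K1 * K2 : ℝ) / l ^ 2 + 2 * (l : ℝ) ^ (3 / 4 : ℝ) *
        (((K1 : ℝ) / l + 1 + Real.log l) * ((K2 : ℝ) / l + 1 + Real.log l)) := by
  have hp : l.Prime := Fact.out
  have hl0 : (0 : ℝ) < l := by exact_mod_cast hp.pos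
  have hlc : (l : ℂ) ≠ 0 := by exact_mod_cast hp.ne_zero
  have hcard : ((((range K1 ×ˢ range K2).filter
        (fun j : ℕ × ℕ => (A + s * (j.1 : ZMod l)) * (B + t * (j.2 : ZMod l)) = 1)).card : ℝ) : ℂ) =
      ∑ j1 ∈ range K1, ∑ j2 ∈ range K2, hyp A B s t (j1 : ZMod l) (j2 : ZMod l) := by
    rw [card_filter, sum_product]
    push_cast
    refine sum_congr rfl fun x _ => sum_congr rfl fun y _ => ?_
    unfold hyp
    split_ifs <;> simp
  set T : ZMod l × ZMod l → ℂ := fun z => gam K1 z.1 * gam K2 z.2 *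
      (ZMod.stdAddChar (-(z.1 * s⁻¹ * A + z.2 * t⁻¹ * B)) * Kl (z.1 * s⁻¹) (z.2 * t⁻¹)) with hT
  have hF : ∑ j1 ∈ range K1, ∑ j2 ∈ range K2, hyp A B s t (j1 : ZMod l) (j2 : ZMod l) =
      (1 / (l : ℂ) ^ 2) * (T 0 + ∑ z ∈ univ.erase (0 : ZMod l × ZMod l), T z) := by
    rw [hyp_fourier A B s t hs ht, add_sum_erase _ _ (mem_univ _), Fintype.sum_prod_type]
  have hT0 : T 0 = (K1 : ℂ) * K2 * (l - 1) := by
    simp only [hT, Prod.fst_zero, Prod.snd_zero, gam_zero, zero_mul, add_zero, neg_zero,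
      AddChar.map_zero_eq_one, Kl_zero, one_mul]
  set M : ℝ := 2 * (l : ℝ) ^ (3 / 4 : ℝ) with hM
  have hM0 : 0 ≤ M := by positivity
  have hrest : ‖∑ z ∈ univ.erase (0 : ZMod l × ZMod l), T z‖ ≤
      (∑ m : ZMod l, ‖gam K1 m‖) * (∑ m : ZMod l, ‖gam K2 m‖) * M := by
    refine (norm_sum_le _ _).trans ?_
    have h1 : ∀ z ∈ univ.erase (0 : ZMod l × ZMod l), ‖T z‖ ≤ ‖gam K1 z.1‖ * ‖gam K2 z.2‖ * M := by
      intro z hz
      have hz0 : z ≠ 0 := ne_of_mem_erase hz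
      simp only [hT]
      rw [norm_mul, norm_mul, norm_mul]
      have hn : ‖(ZMod.stdAddChar (-(z.1 * s⁻¹ * A + z.2 * t⁻¹ * B)) : ℂ)‖ = 1 :=
        AddChar.norm_apply _ _
      rw [hn, one_mul]
      gcongr
      apply Kl_prime_bound hl
      by_contra hcon
      push Not at hcon
      apply hz0
      have a1 : z.1 = 0 := (mul_eq_zero.1 hcon.1).resolve_right (inv_ne_zero hs)
      have a2 : z.2 = 0 := (mul_eq_zero.1 hcon.2).resolve_right (inv_ne_zero ht)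
      exact Prod.ext a1 a2
    refine (sum_le_sum h1).trans ?_
    refine (sum_le_univ_sum_of_nonneg (fun z => by positivity)).trans (le_of_eq ?_)
    rw [Fintype.sum_prod_type, ← sum_mul_sum' K1 K2 M]
  have g1 := sum_gam_le (q := l) K1
  have g2 := sum_gam_le (q := l) K2
  have hlog : 0 ≤ Real.log l := Real.log_natCast_nonneg l
  have hmain : ((((((range K1 ×ˢ range K2).filter
        (fun j : ℕ × ℕ => (A + s * (j.1 : ZMod l)) * (B + t * (j.2 : ZMod l)) = 1)).card : ℝ)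
      - (K1 * K2 : ℝ) / l : ℝ)) : ℂ) = -((K1 * K2 : ℝ) / l ^ 2 : ℝ) +
      (1 / (l : ℂ) ^ 2) * ∑ z ∈ univ.erase (0 : ZMod l × ZMod l), T z := by
    rw [Complex.ofReal_sub, hcard, hF, hT0]
    push_cast
    field_simp
    ring
  rw [← Real.norm_eq_abs, ← Complex.norm_real, hmain]
  refine (norm_add_le _ _).trans ?_
  rw [norm_neg, Complex.norm_real, Real.norm_of_nonneg (by positivity), norm_mul]
  have hn2 : ‖(1 / (l : ℂ) ^ 2)‖ = 1 / (l : ℝ) ^ 2 := by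
    rw [norm_div, norm_pow, norm_one, Complex.norm_natCast]
  rw [hn2]
  have hfin : 1 / (l : ℝ) ^ 2 * ((K1 + l * (1 + Real.log l)) * (K2 + l * (1 + Real.log l)) * M) =
      M * (((K1 : ℝ) / l + 1 + Real.log l) * ((K2 : ℝ) / l + 1 + Real.log l)) := by
    field_simp
    ring
  rw [← hfin]
  have h0 : 0 ≤ ∑ m : ZMod l, ‖gam K2 m‖ := sum_nonneg fun _ _ => norm_nonneg _
  gcongr
  refine hrest.trans ?_
  gcongr
where
  sum_mul_sum' (K1 K2 : ℕ) (M : ℝ) : (∑ m : ZMod l, ‖gam K1 m‖) * (∑ m : ZMod l, ‖gam K2 m‖) * M =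
      ∑ x : ZMod l, ∑ y : ZMod l, ‖gam K1 x‖ * ‖gam K2 y‖ * M := by
    rw [sum_mul_sum, sum_mul]
    exact sum_congr rfl fun x _ => by rw [sum_mul]

end

theorem stmtA : StmtA := by
  intro l hl hl2 A B s t hs ht K1 K2
  have : Fact l.Prime := ⟨hl⟩
  exact stmtA_aux hl2 A B s t hs ht K1 K2

end Pool.Agent.Lib.MP_a17b09_nt.BP
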