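import Mathlib
import Pool.Agent.Lib.MP_a17b09_nt.BP.Ident

/-!
Sizes and signs of the quantities of a balanced triple; numbers of prime factors.
-/

set_option autoImplicit false

namespace Pool.Agent.Lib.MP_a17b09_nt.BP

theorem mm_eq (a b c1 l u v w : ℤ) (h : u * v - a ^ 2 * l * w = 1) :
    mm a b c1 l u v w = a * kk a b c1 l u + (2 * a * xx a b c1 l u v w + b) + a * nn a b c1 v w := by
  unfold mm kk xx nn
  linear_combination b * h

section

variable (a b c1 l u v w L : ℤ)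

structure Box : Prop where
  ha : 1 ≤ a
  hl : 1 ≤ l
  hL : 4 * (|b| + |c1| + 1) * a ^ 2 + 1 ≤ L
  hu : L * l ≤ u
  hu' : u < L * l + l
  hv : L * l ≤ v
  hv' : v < L * l + l
  h : u * v - a ^ 2 * l * w = 1

variable {a b c1 l u v w L}

theorem Box.a2 (h : Box a b c1 l u v w L) : 1 ≤ a ^ 2 := by
  have := h.ha; nlinarith

theorem Box.L4 (h : Box a b c1 l u v w L) : 4 * (|b| + |c1| + 1) + 1 ≤ L := by
  have h1 := h.hL
  have h2 := h.a2
  have h3 := abs_nonneg b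
  have h4 := abs_nonneg c1
  nlinarith

theorem Box.Lac (h : Box a b c1 l u v w L) : 4 * (a ^ 2 * |c1|) ≤ L := by
  have h1 := h.hL
  have h2 := h.a2
  have h3 := mul_nonneg (abs_nonneg b) (sq_nonneg a)
  nlinarith [sq_nonneg a]

theorem Box.L5 (h : Box a b c1 l u v w L) : 5 ≤ L := by
  have h1 := h.L4
  have h3 := abs_nonneg b
  have h4 := abs_nonneg c1
  linarith

theorem Box.lu (h : Box a b c1 l u v w L) : 5 * l ≤ u := by
  have h1 := h.L5
  have h2 := h.hu
  have h3 := h.hl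
  nlinarith

theorem Box.lv (h : Box a b c1 l u v w L) : 5 * l ≤ v := by
  have h1 := h.L5
  have h2 := h.hv
  have h3 := h.hl
  nlinarith

theorem Box.bu (h : Box a b c1 l u v w L) : 4 * |b| * l ≤ u := by
  have h1 := h.L4
  have h2 := h.hu
  have h3 := h.hl
  have h4 := abs_nonneg b
  have h5 := abs_nonneg c1
  nlinarith

theorem Box.k_low (h : Box a b c1 l u v w L) : u ^ 2 ≤ 2 * kk a b c1 l u := by
  have h1 := h.bu
  have h2 := h.Lac
  have h3 := h.hl
  have h4 := h.lu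
  have h5 := h.hu
  have hb := neg_abs_le b
  have hc := neg_abs_le c1
  have hb0 := abs_nonneg b
  have hc0 := abs_nonneg c1
  have hu0 : 0 < u := by linarith
  have e1 : 4 * |b| * l * u ≤ u * u := mul_le_mul_of_nonneg_right h1 hu0.le
  have e2 : -(|b| * (l * u)) ≤ b * (l * u) := by
    have : 0 ≤ l * u := by positivity
    nlinarith
  have e3 : 4 * (a ^ 2 * |c1|) * l ≤ u := le_trans (mul_le_mul_of_nonneg_right h2 (by linarith)) h5
  have e4 : 4 * (a ^ 2 * |c1|) * l * l ≤ u * u := by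
    have : l ≤ u := by linarith
    have h0 : 0 ≤ 4 * (a ^ 2 * |c1|) * l := by positivity
    nlinarith
  have e5 : -(a ^ 2 * |c1| * l ^ 2) ≤ a ^ 2 * c1 * l ^ 2 := by
    have : 0 ≤ a ^ 2 * l ^ 2 := by positivity
    nlinarith
  unfold kk
  nlinarith

theorem Box.w_low (h : Box a b c1 l u v w L) : 4 * (|b| + |c1| + 1) * v ≤ w := by
  have h1 := h.hL
  have h2 := h.hu
  have h3 := h.hl
  have h4 := h.lv
  have h5 := h.h
  have h6 := h.a2
  have hv0 : 1 ≤ v := by linarith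
  have e1 : (4 * (|b| + |c1| + 1) * a ^ 2 + 1) * l ≤ u :=
    le_trans (mul_le_mul_of_nonneg_right h1 (by linarith)) h2
  have e2 : (4 * (|b| + |c1| + 1) * a ^ 2 + 1) * l * v ≤ u * v :=
    mul_le_mul_of_nonneg_right e1 (by linarith)
  have e3 : 1 ≤ l * v := by nlinarith
  have e4 : (a ^ 2 * l) * (4 * (|b| + |c1| + 1) * v) ≤ (a ^ 2 * l) * w := by nlinarith
  have e5 : 0 < a ^ 2 * l := by nlinarith
  exact le_of_mul_le_mul_left e4 e5

theorem Box.w_pos (h : Box a b c1 l u v w L) : v ≤ w := by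
  have h1 := h.w_low
  have h2 := h.lv
  have h3 := h.hl
  have hb0 := abs_nonneg b
  have hc0 := abs_nonneg c1
  nlinarith

theorem Box.w_up (h : Box a b c1 l u v w L) : w ≤ (L + 1) ^ 2 * l := by
  have h1 := h.hu'
  have h2 := h.hv'
  have h3 := h.hl
  have h4 := h.h
  have h5 := h.a2
  have h6 := h.lv
  have h7 := h.lu
  have h8 := h.w_pos
  have h9 := h.L5
  have e1 : u * v ≤ ((L + 1) * l) * ((L + 1) * l) := by
    apply mul_le_mul <;> nlinarith
  have e2 : l * w ≤ a ^ 2 * l * w := by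
    have : 0 ≤ l * w := by nlinarith
    nlinarith
  have e3 : l * w ≤ l * ((L + 1) ^ 2 * l) := by nlinarith
  exact le_of_mul_le_mul_left e3 (by linarith)

theorem Box.n_low (h : Box a b c1 l u v w L) : w ^ 2 ≤ 2 * nn a b c1 v w := by
  have h1 := h.w_low
  have h2 := h.w_pos
  have h3 := h.lv
  have h4 := h.hl
  have h5 := h.a2
  have hb := neg_abs_le b
  have hc := neg_abs_le c1
  have hb0 := abs_nonneg b
  have hc0 := abs_nonneg c1
  have hv0 : 0 < v := by linarith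
  have hw0 : 0 < w := by linarith
  have e1 : 4 * (|b| * v) ≤ w := by nlinarith
  have e2 : 4 * (|c1| * v) ≤ w := by nlinarith
  have e3 : 4 * (|b| * v) * w ≤ w * w := mul_le_mul_of_nonneg_right e1 hw0.le
  have e4 : 4 * (|c1| * v) * v ≤ w * w := by
    have : 0 ≤ 4 * (|c1| * v) := by positivity
    nlinarith
  have e5 : -(|b| * (w * v)) ≤ b * (w * v) := by
    have : 0 ≤ w * v := by positivity
    nlinarith
  have e6 : -(|c1| * v ^ 2) ≤ c1 * v ^ 2 := by
    have : 0 ≤ v ^ 2 := by positivity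
    nlinarith
  have e7 : w ^ 2 ≤ a ^ 2 * w ^ 2 := by
    have : 0 ≤ w ^ 2 := by positivity
    nlinarith
  unfold nn
  nlinarith

theorem Box.x_low (h : Box a b c1 l u v w L) : u * w ≤ 2 * xx a b c1 l u v w := by
  have h1 := h.w_low
  have h2 := h.w_pos
  have h3 := h.lv
  have h4 := h.hl
  have h5 := h.ha
  have h6 := h.bu
  have h7 := h.lu
  have hb := neg_abs_le b
  have hc := neg_abs_le c1
  have hb0 := abs_nonneg b
  have hc0 := abs_nonneg c1
  have hv0 : 0 < v := by linarith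
  have hw0 : 0 < w := by linarith
  have hu0 : 0 < u := by linarith
  have e1 : 4 * |b| * l * w ≤ u * w := mul_le_mul_of_nonneg_right h6 hw0.le
  have e2 : 4 * (|c1| * v) ≤ w := by nlinarith
  have e3 : 4 * (|c1| * v) * l ≤ w * u := by
    have : l ≤ u := by linarith
    have h0 : 0 ≤ 4 * (|c1| * v) := by positivity
    apply mul_le_mul e2 this (by linarith) hw0.le
  have e5 : -(|b| * (l * w)) ≤ b * (l * w) := by
    have : 0 ≤ l * w := by positivity
    nlinarith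
  have e6 : -(|c1| * (l * v)) ≤ c1 * (l * v) := by
    have : 0 ≤ l * v := by positivity
    nlinarith
  have e8 : u * w ≤ 2 * (u * w + b * l * w + c1 * l * v) := by nlinarith
  have e9 : 0 < u * w := by positivity
  unfold xx
  nlinarith

theorem Box.k_pos (h : Box a b c1 l u v w L) : 0 < kk a b c1 l u := by
  have h1 := h.k_low
  have h2 := h.lu
  have h3 := h.hl
  nlinarith

theorem Box.n_pos (h : Box a b c1 l u v w L) : 0 < nn a b c1 v w := by
  have h1 := h.n_low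
  have h2 := h.lv
  have h3 := h.hl
  have h4 := h.w_pos
  nlinarith

theorem Box.x_pos (h : Box a b c1 l u v w L) : 0 < xx a b c1 l u v w := by
  have h1 := h.x_low
  have h2 := h.lv
  have h3 := h.hl
  have h4 := h.w_pos
  have h5 := h.lu
  have : 0 < u * w := by
    apply mul_pos <;> linarith
  linarith

theorem Box.m_pos (h : Box a b c1 l u v w L) : 0 < mm a b c1 l u v w := by
  have h1 := h.x_low
  have h2 := h.lv
  have h3 := h.hl
  have h4 := h.w_pos
  have h5 := h.bu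
  have h6 := h.lu
  have h7 := h.ha
  have h8 := h.k_pos
  have h9 := h.n_pos
  have h10 := h.x_pos
  have hb := neg_abs_le b
  have hb0 := abs_nonneg b
  rw [mm_eq a b c1 l u v w h.h]
  have e1 : u ≤ u * w := by nlinarith
  have e2 : |b| ≤ u := by nlinarith
  have e3 : 0 < a * kk a b c1 l u := mul_pos (by linarith) h8
  have e4 : 0 < a * nn a b c1 v w := mul_pos (by linarith) h9
  have e5 : u * w ≤ 2 * a * xx a b c1 l u v w := by nlinarith
  linarith

/-- upper bounds -/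
theorem Box.upper (h : Box a b c1 l u v w L) :
    kk a b c1 l u ≤ 5 * a ^ 3 * (1 + |b| + |c1|) * ((L + 1) ^ 2 * l) ^ 2 ∧
    nn a b c1 v w ≤ 5 * a ^ 3 * (1 + |b| + |c1|) * ((L + 1) ^ 2 * l) ^ 2 ∧
    mm a b c1 l u v w ≤ 5 * a ^ 3 * (1 + |b| + |c1|) * ((L + 1) ^ 2 * l) ^ 2 ∧
    xx a b c1 l u v w + kk a b c1 l u ≤ 2 * a ^ 2 * (1 + |b| + |c1|) * ((L + 1) ^ 2 * l) ^ 2 ∧
    xx a b c1 l u v w + nn a b c1 v w ≤ 2 * a ^ 2 * (1 + |b| + |c1|) * ((L + 1) ^ 2 * l) ^ 2 := by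
  have h2 := h.lv
  have h3 := h.hl
  have h4 := h.w_pos
  have h6 := h.lu
  have h7 := h.ha
  have h8 := h.w_up
  have h9 := h.L5
  have hu' := h.hu'
  have hv' := h.hv'
  obtain ⟨β, hβ⟩ : ∃ β : ℤ, β = |b| := ⟨_, rfl⟩
  obtain ⟨γ, hγ⟩ : ∃ γ : ℤ, γ = |c1| := ⟨_, rfl⟩
  have hb : b ≤ β := by rw [hβ]; exact le_abs_self b
  have hc : c1 ≤ γ := by rw [hγ]; exact le_abs_self c1
  have hb0 : 0 ≤ β := by rw [hβ]; exact abs_nonneg b
  have hc0 : 0 ≤ γ := by rw [hγ]; exact abs_nonneg c1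
  rw [← hβ, ← hγ]
  obtain ⟨S, hS⟩ : ∃ S : ℤ, S = (L + 1) ^ 2 * l := ⟨_, rfl⟩
  rw [← hS] at h8 ⊢
  have hLl : (L + 1) * l ≤ S := by
    rw [hS]
    have : L + 1 ≤ (L + 1) ^ 2 := by nlinarith
    exact mul_le_mul_of_nonneg_right this (by linarith)
  have hu : u ≤ S := by nlinarith
  have hv : v ≤ S := by nlinarith
  have hl : l ≤ S := by nlinarith
  have hu0 : 0 ≤ u := by linarith
  have hv0 : 0 ≤ v := by linarith
  have hw0 : 0 ≤ w := by linarith
  have hl0 : 0 ≤ l := by linarith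
  have hS0 : 0 ≤ S := by linarith
  have p1 : ∀ x y : ℤ, 0 ≤ x → 0 ≤ y → x ≤ S → y ≤ S → x * y ≤ S ^ 2 := by
    intro x y hx hy hx' hy'
    rw [sq]
    exact mul_le_mul hx' hy' hy hS0
  have p2 : ∀ (z Z x : ℤ), z ≤ Z → 0 ≤ Z → 0 ≤ x → x ≤ S ^ 2 → z * x ≤ Z * S ^ 2 := by
    intro z Z x h1 h2 h3 h4
    calc z * x ≤ Z * x := mul_le_mul_of_nonneg_right h1 h3
      _ ≤ Z * S ^ 2 := mul_le_mul_of_nonneg_left h4 h2
  have a2 : a ≤ a ^ 2 := by nlinarith
  have a3 : a ^ 2 ≤ a ^ 3 := by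
    have : 0 ≤ a ^ 2 * (a - 1) := mul_nonneg (by positivity) (by linarith)
    nlinarith
  have a1 : 1 ≤ a ^ 2 := by nlinarith
  have hS2 : 0 ≤ S ^ 2 := by positivity
  have hS1 : 1 ≤ S ^ 2 := by nlinarith
  -- k
  have k1 : kk a b c1 l u ≤ (1 + β + a ^ 2 * γ) * S ^ 2 := by
    unfold kk
    have e1 := p1 u u hu0 hu0 hu hu
    have e2 := p2 b β (l * u) hb hb0 (mul_nonneg hl0 hu0) (p1 l u hl0 hu0 hl hu)
    have e3 := p2 (a ^ 2 * c1) (a ^ 2 * γ) (l * l) (mul_le_mul_of_nonneg_left hc (by positivity))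
      (by positivity) (mul_nonneg hl0 hl0) (p1 l l hl0 hl0 hl hl)
    nlinarith
  have n1 : nn a b c1 v w ≤ (a ^ 2 + β + γ) * S ^ 2 := by
    unfold nn
    have e1 := p2 (a ^ 2) (a ^ 2) (w * w) le_rfl (by positivity) (mul_nonneg hw0 hw0) (p1 w w hw0 hw0 h8 h8)
    have e2 := p2 b β (w * v) hb hb0 (mul_nonneg hw0 hv0) (p1 w v hw0 hv0 h8 hv)
    have e3 := p2 c1 γ (v * v) hc hc0 (mul_nonneg hv0 hv0) (p1 v v hv0 hv0 hv hv)
    nlinarith
  have x1 : xx a b c1 l u v w ≤ a * (1 + β + γ) * S ^ 2 := by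
    unfold xx
    have e1 := p1 u w hu0 hw0 hu h8
    have e2 := p2 b β (l * w) hb hb0 (mul_nonneg hl0 hw0) (p1 l w hl0 hw0 hl h8)
    have e3 := p2 c1 γ (l * v) hc hc0 (mul_nonneg hl0 hv0) (p1 l v hl0 hv0 hl hv)
    have e4 : u * w + b * l * w + c1 * l * v ≤ (1 + β + γ) * S ^ 2 := by nlinarith
    have e5 := mul_le_mul_of_nonneg_left e4 (by linarith : (0 : ℤ) ≤ a)
    linarith
  have m1 : mm a b c1 l u v w ≤ a * ((1 + β + a ^ 2 * γ) * S ^ 2) + (2 * a * (a * (1 + β + γ) * S ^ 2) + β) +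
      a * ((a ^ 2 + β + γ) * S ^ 2) := by
    rw [mm_eq a b c1 l u v w h.h]
    have e1 := mul_le_mul_of_nonneg_left k1 (by linarith : (0 : ℤ) ≤ a)
    have e2 := mul_le_mul_of_nonneg_left x1 (by linarith : (0 : ℤ) ≤ 2 * a)
    have e3 := mul_le_mul_of_nonneg_left n1 (by linarith : (0 : ℤ) ≤ a)
    linarith
  have c1' : 0 ≤ a ^ 2 * β := by positivity
  have c2' : 0 ≤ a ^ 2 * γ := by positivity
  have c3' : a ^ 2 * β ≤ a ^ 3 * β := mul_le_mul_of_nonneg_right a3 hb0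
  have c4' : a ^ 2 * γ ≤ a ^ 3 * γ := mul_le_mul_of_nonneg_right a3 hc0
  have c5' : a * β ≤ a ^ 2 * β := mul_le_mul_of_nonneg_right a2 hb0
  have c6' : a * γ ≤ a ^ 2 * γ := mul_le_mul_of_nonneg_right a2 hc0
  have c7' : β ≤ a * β := by nlinarith
  have c8' : γ ≤ a * γ := by nlinarith
  refine ⟨?_, ?_, ?_, ?_, ?_⟩
  · refine k1.trans (mul_le_mul_of_nonneg_right ?_ hS2)
    nlinarith
  · refine n1.trans (mul_le_mul_of_nonneg_right ?_ hS2)
    nlinarith
  · have e1 : β ≤ β * S ^ 2 := by nlinarith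
    have e2 : a * ((1 + β + a ^ 2 * γ) * S ^ 2) + (2 * a * (a * (1 + β + γ) * S ^ 2) + β) +
      a * ((a ^ 2 + β + γ) * S ^ 2) ≤ (a * (1 + β + a ^ 2 * γ) + 2 * a ^ 2 * (1 + β + γ) + β +
        a * (a ^ 2 + β + γ)) * S ^ 2 := by nlinarith
    refine m1.trans (e2.trans (mul_le_mul_of_nonneg_right ?_ hS2))
    have e3 : a * (a ^ 2 * γ) = a ^ 3 * γ := by ring
    nlinarith
  · refine (add_le_add x1 k1).trans ?_
    rw [← add_mul]
    apply mul_le_mul_of_nonneg_right _ hS2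
    nlinarith
  · refine (add_le_add x1 n1).trans ?_
    rw [← add_mul]
    apply mul_le_mul_of_nonneg_right _ hS2
    nlinarith

end

/-- uniqueness -/
theorem Box.unique {a b c1 l u v w l' u' v' w' L Y : ℤ} (h : Box a b c1 l u v w L)
    (h' : Box a b c1 l' u' v' w' L) (hk : kk a b c1 l u = kk a b c1 l' u')
    (hx : xx a b c1 l u v w = xx a b c1 l' u' v' w') (hY : l ≤ Y) (hY' : l' ≤ Y) (hY2 : Y ≤ 2 * l)
    (hp : Prime l) (hp' : Prime l') : l = l' ∧ u = u' ∧ v = v' := by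
  have d1 := dvd1 a b c1 l u v w h.h
  have d2 := dvd1 a b c1 l' u' v' w' h'.h
  rw [← hk, ← hx] at d2
  obtain ⟨k, hk'⟩ : ∃ k : ℤ, k = kk a b c1 l u := ⟨_, rfl⟩
  obtain ⟨x, hx'⟩ : ∃ x : ℤ, x = xx a b c1 l u v w := ⟨_, rfl⟩
  rw [← hk', ← hx'] at d1 d2
  have hkl := h.k_low
  rw [← hk'] at hkl
  have h1 := h.hl
  have h2 := h'.hl
  have h3 := h.hu
  have h4 := h.hu'
  have h5 := h'.hu
  have h6 := h'.hu'
  have h7 := h.L5
  have hdiv : u * l' - u' * l = k * (v * l' - v' * l) := by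
    linear_combination l' * d1 - l * d2
  have hlow : Y ^ 2 < k := by
    have e1 : 5 * l ≤ u := h.lu
    have e2 : (5 * l) ^ 2 ≤ u ^ 2 := by nlinarith
    nlinarith
  have hup : |u * l' - u' * l| < Y ^ 2 := by
    have e0 : l * l' ≤ Y ^ 2 := by nlinarith
    have e1 : u * l' - u' * l < l * l' := by nlinarith
    have e2 : -(l * l') < u * l' - u' * l := by nlinarith
    rw [abs_lt]
    constructor <;> linarith
  have hz : v * l' - v' * l = 0 := by
    by_contra hne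
    have h8 : 1 ≤ |v * l' - v' * l| := Int.one_le_abs hne
    rw [hdiv, abs_mul] at hup
    have h9 : |k| = k := abs_of_pos (by nlinarith)
    rw [h9] at hup
    nlinarith
  have hz2 : u * l' - u' * l = 0 := by rw [hdiv, hz, mul_zero]
  -- l | u l', l ∤ u
  have hlu : ¬ l ∣ u := by
    intro hcon
    have h8 : l ∣ 1 := by
      rw [← h.h]
      exact dvd_sub (hcon.mul_right v) (Dvd.dvd.mul_right (Dvd.intro_left _ rfl) w)
    exact hp.not_unit (isUnit_of_dvd_one h8)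
  have hll : l ∣ l' := by
    have h8 : l ∣ u * l' := ⟨u', by linarith⟩
    exact (hp.dvd_or_dvd h8).resolve_left hlu
  have hll' : l = l' := by
    obtain ⟨t, ht⟩ := hll
    have hirr := hp'.irreducible
    rcases (hirr.isUnit_or_isUnit ht) with h8 | h8
    · exact absurd h8 hp.not_unit
    · rcases Int.isUnit_iff.1 h8 with h9 | h9
      · rw [ht, h9, mul_one]
      · rw [h9] at ht; linarith
  subst hll'
  have hl0 : l ≠ 0 := by linarith
  refine ⟨rfl, ?_, ?_⟩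
  · exact mul_right_cancel₀ hl0 (by linarith)
  · exact mul_right_cancel₀ hl0 (by linarith)

end Pool.Agent.Lib.MP_a17b09_nt.BP
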