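import Mathlib
import Pool.Agent.Lib.MP_a17b09_nt.BP.Props

/-!
Numbers of prime factors.
-/

set_option autoImplicit false

namespace Pool.Agent.Lib.MP_a17b09_nt.BP

open ArithmeticFunction

theorem rough_count (m z B : ℕ) (hm : m ≠ 0) (hz : 1 ≤ z) (hr : ∀ p : ℕ, p.Prime → p ∣ m → z < p)
    (hmB : m < z ^ (B + 1)) : cardFactors m ≤ B := by
  by_contra hcon
  push Not at hcon
  have h1 : z ^ (m.primeFactorsList).length ≤ (m.primeFactorsList).prod := by
    apply List.pow_card_le_prod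
    intro x hx
    have h2 := (Nat.mem_primeFactorsList hm).1 hx
    exact (hr x h2.1 h2.2).le
  rw [Nat.prod_primeFactorsList hm] at h1
  have h3 : B + 1 ≤ m.primeFactorsList.length := by
    rw [← cardFactors_apply]; exact hcon
  have h4 : z ^ (B + 1) ≤ z ^ (m.primeFactorsList).length := Nat.pow_le_pow_right hz h3
  omega

theorem omega_bound (k k0 T : ℤ) (z B : ℕ) (hk : 0 < k) (hk0 : k0 ≠ 0) (hT : k0 ∣ T)
    (hmod : T ^ 2 ∣ k - k0) (hr : ∀ p : ℕ, p.Prime → (p : ℤ) ∣ k → ¬ (p : ℤ) ∣ T → z < p)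
    (hz : 1 ≤ z) (hkB : k.natAbs < z ^ (B + 1)) :
    cardFactors k.natAbs ≤ cardFactors k0.natAbs + B ∧
    ∀ p : ℕ, p.Prime → (p : ℤ) ∣ k → p ≤ k0.natAbs ∨ z < p := by
  have h1 : k0 ∣ T ^ 2 := hT.trans (dvd_pow_self T two_ne_zero)
  have h2 : k0 ∣ k := by
    have := (h1.trans hmod).add (dvd_refl k0)
    rwa [sub_add_cancel] at this
  obtain ⟨k', hk'⟩ := h2
  have hk'0 : k' ≠ 0 := by
    rintro rfl
    rw [mul_zero] at hk'
    omega
  have hrough : ∀ p : ℕ, p.Prime → (p : ℤ) ∣ k' → z < p := by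
    intro p hp hpk
    apply hr p hp (hpk.trans ⟨k0, by rw [hk']; ring⟩)
    intro hpT
    have h3 : (p : ℤ) * k0 ∣ T ^ 2 := by
      rw [sq]; exact mul_dvd_mul hpT hT
    have h4 : (p : ℤ) * k0 ∣ k := by
      obtain ⟨t, ht⟩ := hpk
      exact ⟨t, by rw [hk', ht]; ring⟩
    have h5 : (p : ℤ) * k0 ∣ k0 := by
      have := dvd_sub h4 (h3.trans hmod)
      rwa [sub_sub_cancel] at this
    obtain ⟨t, ht⟩ := h5
    have h6 : (p : ℤ) * t = 1 := by
      have : k0 * ((p : ℤ) * t - 1) = 0 := by linear_combination -ht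
      rcases mul_eq_zero.1 this with h | h
      · exact absurd h hk0
      · linarith
    have h7 : (p : ℤ) ∣ 1 := ⟨t, h6.symm⟩
    have h8 : p ∣ 1 := by exact_mod_cast h7
    exact hp.one_lt.ne' (Nat.dvd_one.1 h8)
  have hnat : k.natAbs = k0.natAbs * k'.natAbs := by rw [hk', Int.natAbs_mul]
  constructor
  · rw [hnat, cardFactors_mul (Int.natAbs_ne_zero.2 hk0) (Int.natAbs_ne_zero.2 hk'0)]
    apply Nat.add_le_add_left
    apply rough_count k'.natAbs z B (Int.natAbs_ne_zero.2 hk'0) hz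
    · intro p hp hpk
      exact hrough p hp (Int.natCast_dvd.2 hpk)
    · refine lt_of_le_of_lt ?_ hkB
      rw [hnat]
      exact Nat.le_mul_of_pos_left _ (Int.natAbs_pos.2 hk0)
  · intro p hp hpk
    rw [hk'] at hpk
    rcases (Nat.prime_iff_prime_int.1 hp).dvd_or_dvd hpk with h | h
    · left
      exact Nat.le_of_dvd (Int.natAbs_pos.2 hk0) (Int.natCast_dvd.1 h)
    · right
      exact hrough p hp h

/-- one of the three values has the parity of `Ω(a)` -/
theorem parity3 (a k n m : ℤ) (ha : a ≠ 0) (hk : k ≠ 0) (hn : n ≠ 0) (hm : m ≠ 0) :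
    cardFactors (a * k * n).natAbs ≡ cardFactors a.natAbs [MOD 2] ∨
    cardFactors (k * m).natAbs ≡ cardFactors a.natAbs [MOD 2] ∨
    cardFactors (n * m).natAbs ≡ cardFactors a.natAbs [MOD 2] := by
  have h1 : ∀ x y : ℤ, x ≠ 0 → y ≠ 0 → cardFactors (x * y).natAbs =
      cardFactors x.natAbs + cardFactors y.natAbs := by
    intro x y hx hy
    rw [Int.natAbs_mul, cardFactors_mul (Int.natAbs_ne_zero.2 hx) (Int.natAbs_ne_zero.2 hy)]
  rw [h1 _ _ (mul_ne_zero ha hk) hn, h1 _ _ ha hk, h1 _ _ hk hm, h1 _ _ hn hm]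
  unfold Nat.ModEq
  omega

theorem card_divisors_le_two_pow (n : ℕ) (hn : n ≠ 0) : n.divisors.card ≤ 2 ^ cardFactors n := by
  induction n using Nat.recOnMul with
  | zero => exact absurd rfl hn
  | one => simp
  | prime p hp => rw [hp.divisors, cardFactors_apply_prime hp, Finset.card_pair hp.one_lt.ne]; norm_num
  | mul a b iha ihb =>
    have ha : a ≠ 0 := by rintro rfl; simp at hn
    have hb : b ≠ 0 := by rintro rfl; simp at hn
    rw [cardFactors_mul ha hb, pow_add]
    calc (a * b).divisors.card ≤ a.divisors.card * b.divisors.card := by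
          rw [Nat.divisors_mul]
          exact Finset.card_mul_le
      _ ≤ _ := Nat.mul_le_mul (iha ha) (ihb hb)

end Pool.Agent.Lib.MP_a17b09_nt.BP
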