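import Mathlib
import Pool.Agent.Lib.MP_a17b09_nt.BP.Omega
import Pool.Agent.Lib.MP_a17b09_nt.BP.SieveL

/-!
What the sifted points give.
-/

set_option autoImplicit false

namespace Pool.Agent.Lib.MP_a17b09_nt.BP

open ArithmeticFunction

theorem facts (a b c1 T : ℤ) (ha : 1 ≤ a) (haT : a ∣ T) (h30 : 30 ∣ T) (L M l n : ℕ)
    (hM : (M : ℤ) = a ^ 2 * T ^ 2) (hL : 4 * (|b| + |c1| + 1) * a ^ 2 + 1 ≤ (L : ℤ))
    (hl : l.Prime) (hl1 : l ≡ 1 [MOD M]) (s : ℕ × ℕ)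
    (hs : s ∈ sft a b c1 L M l n) : ∃ w : ℤ, Box a b c1 l s.1 s.2 w L ∧
      T ^ 2 ∣ kk a b c1 l s.1 - (1 + b + a ^ 2 * c1) ∧
      T ^ 2 ∣ nn a b c1 s.2 w - c1 ∧
      T ^ 2 ∣ mm a b c1 l s.1 s.2 w - (a + b * (a + 1) + a * c1 * (a + 1) ^ 2) ∧
      (∀ p : ℕ, p.Prime → (p : ℤ) ∣ kk a b c1 l s.1 → ¬ (p : ℤ) ∣ T → 2 ^ (2 ^ n) < p) ∧
      (∀ p : ℕ, p.Prime → (p : ℤ) ∣ nn a b c1 s.2 w → ¬ (p : ℤ) ∣ T → 2 ^ (2 ^ n) < p) ∧
      (∀ p : ℕ, p.Prime → (p : ℤ) ∣ mm a b c1 l s.1 s.2 w → ¬ (p : ℤ) ∣ T → 2 ^ (2 ^ n) < p) := by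
  classical
  unfold sft at hs
  rw [Finset.mem_filter] at hs
  obtain ⟨hs1, hs2⟩ := hs
  unfold pts at hs1
  rw [Finset.mem_filter, Finset.mem_product, Finset.mem_Ico, Finset.mem_Ico] at hs1
  obtain ⟨⟨⟨a1, a2⟩, ⟨a3, a4⟩⟩, ⟨a5, a6⟩, a7⟩ := hs1
  obtain ⟨u, hu⟩ : ∃ u : ℤ, u = (s.1 : ℤ) := ⟨_, rfl⟩
  obtain ⟨v, hv⟩ : ∃ v : ℤ, v = (s.2 : ℤ) := ⟨_, rfl⟩
  have m1 : (M : ℤ) ∣ u - 1 := by
    have := (Nat.modEq_iff_dvd.1 a5.symm)
    rw [hu]; push_cast at this; exact this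
  have m2 : (M : ℤ) ∣ v - 1 := by
    have := (Nat.modEq_iff_dvd.1 a6.symm)
    rw [hv]; push_cast at this; exact this
  have m3 : (M : ℤ) ∣ (l : ℤ) - 1 := by
    have := (Nat.modEq_iff_dvd.1 hl1.symm)
    push_cast at this; exact this
  have m4 : (M : ℤ) ∣ u * v - 1 := by
    have : u * v - 1 = (u - 1) * v + (v - 1) := by ring
    rw [this]
    exact dvd_add (m1.mul_right v) m2
  have m5 : (l : ℤ) ∣ u * v - 1 := by
    haveI : NeZero l := ⟨hl.ne_zero⟩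
    rw [← ZMod.intCast_zmod_eq_zero_iff_dvd]
    push_cast
    rw [hu, hv]
    push_cast
    rw [a7, sub_self]
  have ha2M : a ^ 2 ∣ (M : ℤ) := by rw [hM]; exact Dvd.intro _ rfl
  have hT2M : T ^ 2 ∣ (M : ℤ) := by rw [hM]; exact Dvd.intro_left _ rfl
  have cop : IsCoprime (l : ℤ) (M : ℤ) := by
    obtain ⟨t, ht⟩ := m3
    exact ⟨1, -t, by linear_combination ht⟩
  have cop1 : IsCoprime (a ^ 2) (l : ℤ) := (IsCoprime.of_isCoprime_of_dvd_right cop ha2M).symm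
  have cop2 : IsCoprime (T ^ 2) (l : ℤ) := (IsCoprime.of_isCoprime_of_dvd_right cop hT2M).symm
  have m6 : a ^ 2 * l ∣ u * v - 1 := cop1.mul_dvd (ha2M.trans m4) m5
  obtain ⟨w, hw⟩ := m6
  have hw' : u * v - a ^ 2 * l * w = 1 := by linear_combination hw
  have ha2 : a ^ 2 ≠ 0 := by positivity
  have m7 : T ^ 2 ∣ w := by
    have h1 : a ^ 2 * T ^ 2 ∣ a ^ 2 * (l * w) := by
      have : a ^ 2 * (l * w) = u * v - 1 := by rw [hw]; ring
      rw [this, ← hM]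
      exact m4
    exact cop2.dvd_of_dvd_mul_left (Int.dvd_of_mul_dvd_mul_left ha2 h1)
  have t1 : T ^ 2 ∣ u - 1 := hT2M.trans m1
  have t2 : T ^ 2 ∣ v - 1 := hT2M.trans m2
  have t3 : T ^ 2 ∣ (l : ℤ) - 1 := hT2M.trans m3
  have hbox : Box a b c1 l s.1 s.2 w L := by
    rw [← hu, ← hv]
    refine ⟨ha, by exact_mod_cast hl.one_lt.le, hL, ?_, ?_, ?_, ?_, hw'⟩
    · rw [hu]; exact_mod_cast a1
    · rw [hu]; exact_mod_cast a2
    · rw [hv]; exact_mod_cast a3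
    · rw [hv]; exact_mod_cast a4
  -- roughness
  have rough : ∀ p : ℕ, p.Prime → ¬ (p : ℤ) ∣ T → p ≤ 2 ^ (2 ^ n) →
      ¬ badq a b c1 l p s := by
    intro p hp hpT hpn
    apply hs2 p hp
    · by_contra hcon
      push Not at hcon
      apply hpT
      refine dvd_trans ?_ h30
      have h3 : p ∣ 30 := by
        interval_cases p <;> first | decide | (exfalso; revert hp; decide)
      exact_mod_cast h3
    · exact hpn
    · intro hpM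
      have h1 : (p : ℤ) ∣ a ^ 2 * T ^ 2 := by
        rw [← hM]; exact_mod_cast hpM
      have hpp := Nat.prime_iff_prime_int.1 hp
      rcases hpp.dvd_or_dvd h1 with h | h
      · exact hpT ((hpp.dvd_of_dvd_pow h).trans haT)
      · exact hpT (hpp.dvd_of_dvd_pow h)
  refine ⟨w, hbox, ?_, ?_, ?_, ?_, ?_, ?_⟩
  · rw [← hu]
    obtain ⟨x, hx⟩ := t1
    obtain ⟨y, hy⟩ := t3
    have e1 : u = 1 + T ^ 2 * x := by linarith
    have e2 : (l : ℤ) = 1 + T ^ 2 * y := by linarith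
    unfold kk
    rw [e1, e2]
    exact ⟨x * (2 + T ^ 2 * x) + b * (y + x + T ^ 2 * x * y) + a ^ 2 * c1 * (y * (2 + T ^ 2 * y)), by ring⟩
  · rw [← hv]
    obtain ⟨x, hx⟩ := t2
    obtain ⟨y, hy⟩ := m7
    have e1 : v = 1 + T ^ 2 * x := by linarith
    unfold nn
    rw [e1, hy]
    exact ⟨a ^ 2 * (T ^ 2 * y) * y + b * y * (1 + T ^ 2 * x) + c1 * (x * (2 + T ^ 2 * x)), by ring⟩
  · rw [← hu, ← hv]
    obtain ⟨x, hx⟩ := t1
    obtain ⟨x', hx'⟩ := t2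
    obtain ⟨y, hy⟩ := t3
    obtain ⟨y', hy'⟩ := m7
    have e1 : u = 1 + T ^ 2 * x := by linarith
    have e2 : v = 1 + T ^ 2 * x' := by linarith
    have e3 : (l : ℤ) = 1 + T ^ 2 * y := by linarith
    have e4 : u + a * w = 1 + T ^ 2 * (x + a * y') := by rw [e1, hy']; ring
    have e5 : a * l + v = (a + 1) + T ^ 2 * (a * y + x') := by rw [e2, e3]; ring
    unfold mm
    rw [e4, e5]
    obtain ⟨g, hg⟩ : ∃ g : ℤ, g = x + a * y' := ⟨_, rfl⟩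
    obtain ⟨g', hg'⟩ : ∃ g : ℤ, g = a * y + x' := ⟨_, rfl⟩
    rw [← hg, ← hg']
    exact ⟨a * (g * (2 + T ^ 2 * g)) + b * (g' + g * (a + 1) + T ^ 2 * g * g') +
      a * c1 * (g' * (2 * (a + 1) + T ^ 2 * g')), by ring⟩
  · intro p hp hpk hpT
    by_contra hcon
    push Not at hcon
    apply rough p hp hpT hcon
    unfold badq
    exact hpk.mul_right _
  · intro p hp hpk hpT
    by_contra hcon
    push Not at hcon
    apply rough p hp hpT hcon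
    unfold badq
    rw [LLp_eq a b c1 l s.1 s.2 w hbox.h]
    exact ((hpk.mul_left _).mul_right _).mul_left _
  · intro p hp hpk hpT
    by_contra hcon
    push Not at hcon
    apply rough p hp hpT hcon
    unfold badq
    rw [MMp_eq a b c1 l s.1 s.2 w hbox.h]
    exact ((hpk.mul_left _).mul_left _).mul_left _

end Pool.Agent.Lib.MP_a17b09_nt.BP
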