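import Mathlib
import Pool.Agent.Lib.MP_a17b09_nt.BP.Facts

/-!
From sifted points to arguments.
-/

set_option autoImplicit false

namespace Pool.Agent.Lib.MP_a17b09_nt.BP

open ArithmeticFunction Finset

open Classical in
/-- the good arguments up to `N` -/
noncomputable def goodSet (a b c1 : ℤ) (C N : ℕ) : Finset ℕ :=
  (Finset.Icc 1 N).filter (fun t : ℕ => 0 < ff a b c1 t ∧
    cardFactors (ff a b c1 t).natAbs ≤ C ∧
    cardFactors (ff a b c1 t).natAbs ≡ cardFactors a.natAbs [MOD 2] ∧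
    ∀ p : ℕ, p.Prime → (p : ℤ) ∣ ff a b c1 t → p ≤ C ∨ (N : ℝ) ^ (1 / (C : ℝ)) < p)

theorem Om_mul {x y : ℤ} (hx : x ≠ 0) (hy : y ≠ 0) : cardFactors (x * y).natAbs =
      cardFactors x.natAbs + cardFactors y.natAbs := by
  rw [Int.natAbs_mul, cardFactors_mul (Int.natAbs_ne_zero.2 hx) (Int.natAbs_ne_zero.2 hy)]

theorem one_point (a b c1 T k0 m0 : ℤ) (ha : 1 ≤ a) (hk0d : k0 = 1 + b + a ^ 2 * c1)
    (hm0d : m0 = a + b * (a + 1) + a * c1 * (a + 1) ^ 2) (hk0 : k0 ≠ 0) (hc1 : c1 ≠ 0) (hm0 : m0 ≠ 0)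
    (hT : T = 30 * a * (k0 * c1 * m0)) (L M x n N B C : ℕ)
    (hM : (M : ℤ) = a ^ 2 * T ^ 2) (hL : 4 * (|b| + |c1| + 1) * a ^ 2 + 1 ≤ (L : ℤ))
    (hB : 5 * a ^ 3 * (1 + |b| + |c1|) * (((L : ℤ) + 1) ^ 2 * (2 * x)) ^ 2 < ((2 ^ (2 ^ n)) ^ (B + 1) : ℕ))
    (hN : 2 * a ^ 2 * (1 + |b| + |c1|) * (((L : ℤ) + 1) ^ 2 * (2 * x)) ^ 2 ≤ (N : ℤ))
    (hC : cardFactors a.natAbs + cardFactors k0.natAbs + cardFactors c1.natAbs +
      cardFactors m0.natAbs + 3 * B ≤ C) (hC2 : a.natAbs + k0.natAbs + c1.natAbs + m0.natAbs ≤ C)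
    (hz : (N : ℝ) ^ (1 / (C : ℝ)) ≤ (2 : ℝ) ^ (2 ^ n))
    (l : ℕ) (hl : l.Prime) (hl1 : l ≡ 1 [MOD M]) (hlx : l ≤ 2 * x) (s : ℕ × ℕ)
    (hs : s ∈ sft a b c1 L M l n) : ∃ t : ℕ, ∃ w : ℤ, Box a b c1 l s.1 s.2 w L ∧
      t ∈ goodSet a b c1 C N ∧ ((t : ℤ) = xx a b c1 l s.1 s.2 w ∨
        (t : ℤ) = xx a b c1 l s.1 s.2 w + kk a b c1 l s.1 ∨
        (t : ℤ) = xx a b c1 l s.1 s.2 w + nn a b c1 s.2 w) := by
  classical
  have haT : a ∣ T := ⟨30 * (k0 * c1 * m0), by rw [hT]; ring⟩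
  have h30 : (30 : ℤ) ∣ T := ⟨a * (k0 * c1 * m0), by rw [hT]; ring⟩
  have hkT : k0 ∣ T := ⟨30 * a * (c1 * m0), by rw [hT]; ring⟩
  have hcT : c1 ∣ T := ⟨30 * a * (k0 * m0), by rw [hT]; ring⟩
  have hmT : m0 ∣ T := ⟨30 * a * (k0 * c1), by rw [hT]; ring⟩
  obtain ⟨w, hbox, e1, e2, e3, r1, r2, r3⟩ := facts a b c1 T ha haT h30 L M l n hM hL hl hl1 s hs
  rw [← hk0d] at e1
  rw [← hm0d] at e3
  obtain ⟨k, hk⟩ : ∃ k : ℤ, k = kk a b c1 l s.1 := ⟨_, rfl⟩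
  obtain ⟨q, hq⟩ : ∃ q : ℤ, q = nn a b c1 s.2 w := ⟨_, rfl⟩
  obtain ⟨m, hm⟩ : ∃ m : ℤ, m = mm a b c1 l s.1 s.2 w := ⟨_, rfl⟩
  obtain ⟨X, hX⟩ : ∃ X : ℤ, X = xx a b c1 l s.1 s.2 w := ⟨_, rfl⟩
  have i1 := id1 a b c1 l s.1 s.2 w hbox.h
  have i2 := id2 a b c1 l s.1 s.2 w hbox.h
  have i3 := id3 a b c1 l s.1 s.2 w hbox.h
  have hkp := hbox.k_pos
  have hqp := hbox.n_pos
  have hmp := hbox.m_pos
  have hXp := hbox.x_pos
  obtain ⟨u1, u2, u3, u4, u5⟩ := hbox.upper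
  rw [← hk] at e1 r1 i1 i2 hkp u1 u4
  rw [← hq] at e2 r2 i1 i3 hqp u2 u5
  rw [← hm] at e3 r3 i2 i3 hmp u3
  rw [← hX] at i1 i2 i3 hXp u4 u5
  -- size
  have hb0 := abs_nonneg b
  have hc0 := abs_nonneg c1
  have hsz : (((L : ℤ) + 1) ^ 2 * (l : ℤ)) ^ 2 ≤ (((L : ℤ) + 1) ^ 2 * (2 * x)) ^ 2 := by
    have h1 : (l : ℤ) ≤ 2 * x := by exact_mod_cast hlx
    have h2 : ((L : ℤ) + 1) ^ 2 * (l : ℤ) ≤ ((L : ℤ) + 1) ^ 2 * (2 * x) :=
      mul_le_mul_of_nonneg_left h1 (by positivity)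
    exact pow_le_pow_left₀ (by positivity) h2 2
  have hbig : ∀ y : ℤ, 0 < y → y ≤ 5 * a ^ 3 * (1 + |b| + |c1|) * (((L : ℤ) + 1) ^ 2 * (l : ℤ)) ^ 2 →
      y.natAbs < (2 ^ (2 ^ n)) ^ (B + 1) := by
    intro y hy hy'
    have h1 : 5 * a ^ 3 * (1 + |b| + |c1|) * (((L : ℤ) + 1) ^ 2 * (l : ℤ)) ^ 2 ≤
        5 * a ^ 3 * (1 + |b| + |c1|) * (((L : ℤ) + 1) ^ 2 * (2 * x)) ^ 2 :=
      mul_le_mul_of_nonneg_left hsz (by positivity)
    have h2 : y < ((2 ^ (2 ^ n)) ^ (B + 1) : ℕ) := by linarith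
    have h3 : (y.natAbs : ℤ) = y := Int.natAbs_of_nonneg hy.le
    rw [← h3] at h2
    exact_mod_cast h2
  have hz1 : 1 ≤ 2 ^ (2 ^ n) := Nat.one_le_two_pow
  obtain ⟨o1, o1'⟩ := omega_bound k k0 T (2 ^ (2 ^ n)) B hkp hk0 hkT e1 r1 hz1 (hbig k hkp u1)
  obtain ⟨o2, o2'⟩ := omega_bound q c1 T (2 ^ (2 ^ n)) B hqp hc1 hcT e2 r2 hz1 (hbig q hqp u2)
  obtain ⟨o3, o3'⟩ := omega_bound m m0 T (2 ^ (2 ^ n)) B hmp hm0 hmT e3 r3 hz1 (hbig m hmp u3)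
  have ha0 : a ≠ 0 := by linarith
  have hz2 : ∀ p : ℕ, 2 ^ (2 ^ n) < p → (N : ℝ) ^ (1 / (C : ℝ)) < p := by
    intro p hp
    refine lt_of_le_of_lt hz ?_
    exact_mod_cast hp
  -- good argument
  have hgood : ∀ t : ℤ, 0 < t → t ≤ 2 * a ^ 2 * (1 + |b| + |c1|) * (((L : ℤ) + 1) ^ 2 * (l : ℤ)) ^ 2 →
      0 < ff a b c1 t → cardFactors (ff a b c1 t).natAbs ≤ C →
      cardFactors (ff a b c1 t).natAbs ≡ cardFactors a.natAbs [MOD 2] →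
      (∀ p : ℕ, p.Prime → (p : ℤ) ∣ ff a b c1 t → p ≤ C ∨ (N : ℝ) ^ (1 / (C : ℝ)) < p) →
      t.toNat ∈ goodSet a b c1 C N ∧ ((t.toNat : ℕ) : ℤ) = t := by
    intro t ht ht' h1 h2 h3 h4
    have ht2 : ((t.toNat : ℕ) : ℤ) = t := Int.toNat_of_nonneg ht.le
    refine ⟨?_, ht2⟩
    unfold goodSet
    rw [mem_filter, Finset.mem_Icc, ht2]
    refine ⟨⟨?_, ?_⟩, h1, h2, h3, h4⟩
    · omega
    · have h5 : 2 * a ^ 2 * (1 + |b| + |c1|) * (((L : ℤ) + 1) ^ 2 * (l : ℤ)) ^ 2 ≤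
        2 * a ^ 2 * (1 + |b| + |c1|) * (((L : ℤ) + 1) ^ 2 * (2 * x)) ^ 2 :=
        mul_le_mul_of_nonneg_left hsz (by positivity)
      have h6 : t ≤ (N : ℤ) := by linarith
      omega
  have hk0' : k ≠ 0 := hkp.ne'
  have hq0' : q ≠ 0 := hqp.ne'
  have hm0' : m ≠ 0 := hmp.ne'
  have pr : ∀ (p : ℕ), p.Prime → ∀ y z : ℤ, (p : ℤ) ∣ y * z → (p : ℤ) ∣ y ∨ (p : ℤ) ∣ z :=
    fun p hp y z h => (Nat.prime_iff_prime_int.1 hp).dvd_or_dvd h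
  have pa : ∀ (p : ℕ), (p : ℤ) ∣ a → p ≤ C := by
    intro p hpa
    have h1 := Nat.le_of_dvd (Int.natAbs_pos.2 ha0) (Int.natCast_dvd.1 hpa)
    omega
  have pk : ∀ (p : ℕ), p.Prime → (p : ℤ) ∣ k → p ≤ C ∨ (N : ℝ) ^ (1 / (C : ℝ)) < p := by
    intro p hp hpk
    rcases o1' p hp hpk with h | h
    · left; omega
    · right; exact hz2 p h
  have pq : ∀ (p : ℕ), p.Prime → (p : ℤ) ∣ q → p ≤ C ∨ (N : ℝ) ^ (1 / (C : ℝ)) < p := by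
    intro p hp hpk
    rcases o2' p hp hpk with h | h
    · left; omega
    · right; exact hz2 p h
  have pm : ∀ (p : ℕ), p.Prime → (p : ℤ) ∣ m → p ≤ C ∨ (N : ℝ) ^ (1 / (C : ℝ)) < p := by
    intro p hp hpk
    rcases o3' p hp hpk with h | h
    · left; omega
    · right; exact hz2 p h
  rcases parity3 a k q m ha0 hk0' hq0' hm0' with h | h | h
  · rw [← i1] at h
    obtain ⟨g1, g2⟩ := hgood X hXp (by linarith) (by rw [i1]; positivity) (by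
      rw [i1, Om_mul (mul_ne_zero ha0 hk0') hq0', Om_mul ha0 hk0']; omega) h (by
      intro p hp hpf
      rw [i1] at hpf
      rcases pr p hp _ _ hpf with hpf | hpf
      · rcases pr p hp _ _ hpf with hpf | hpf
        · left; exact pa p hpf
        · exact pk p hp hpf
      · exact pq p hp hpf)
    exact ⟨X.toNat, w, hbox, g1, Or.inl (by rw [g2, hX])⟩
  · rw [← i2] at h
    obtain ⟨g1, g2⟩ := hgood (X + k) (by linarith) u4 (by rw [i2]; positivity) (by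
      rw [i2, Om_mul hk0' hm0']; omega) h (by
      intro p hp hpf
      rw [i2] at hpf
      rcases pr p hp _ _ hpf with hpf | hpf
      · exact pk p hp hpf
      · exact pm p hp hpf)
    exact ⟨(X + k).toNat, w, hbox, g1, Or.inr (Or.inl (by rw [g2, hX, hk]))⟩
  · rw [← i3] at h
    obtain ⟨g1, g2⟩ := hgood (X + q) (by linarith) u5 (by rw [i3]; positivity) (by
      rw [i3, Om_mul hq0' hm0']; omega) h (by
      intro p hp hpf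
      rw [i3] at hpf
      rcases pr p hp _ _ hpf with hpf | hpf
      · exact pq p hp hpf
      · exact pm p hp hpf)
    exact ⟨(X + q).toNat, w, hbox, g1, Or.inr (Or.inr (by rw [g2, hX, hq]))⟩

open Classical in
theorem count_main (a b c1 T k0 m0 : ℤ) (ha : 1 ≤ a) (hk0d : k0 = 1 + b + a ^ 2 * c1)
    (hm0d : m0 = a + b * (a + 1) + a * c1 * (a + 1) ^ 2) (hk0 : k0 ≠ 0) (hc1 : c1 ≠ 0) (hm0 : m0 ≠ 0)
    (hT : T = 30 * a * (k0 * c1 * m0)) (L M x n N B C : ℕ)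
    (hM : (M : ℤ) = a ^ 2 * T ^ 2) (hL : 4 * (|b| + |c1| + 1) * a ^ 2 + 1 ≤ (L : ℤ))
    (hB : 5 * a ^ 3 * (1 + |b| + |c1|) * (((L : ℤ) + 1) ^ 2 * (2 * x)) ^ 2 < ((2 ^ (2 ^ n)) ^ (B + 1) : ℕ))
    (hN : 2 * a ^ 2 * (1 + |b| + |c1|) * (((L : ℤ) + 1) ^ 2 * (2 * x)) ^ 2 ≤ (N : ℤ))
    (hC : cardFactors a.natAbs + cardFactors k0.natAbs + cardFactors c1.natAbs +
      cardFactors m0.natAbs + 3 * B ≤ C) (hC2 : a.natAbs + k0.natAbs + c1.natAbs + m0.natAbs ≤ C)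
    (hz : (N : ℝ) ^ (1 / (C : ℝ)) ≤ (2 : ℝ) ^ (2 ^ n)) :
    ∑ l ∈ (Finset.Ioc x (2 * x)).filter (fun p => p.Prime ∧ p ≡ 1 [MOD M]),
      (sft a b c1 L M l n).card ≤ (3 * 2 ^ C) * (goodSet a b c1 C N).card := by
  set PP := (Finset.Ioc x (2 * x)).filter (fun p => p.Prime ∧ p ≡ 1 [MOD M]) with hPP
  set Tr : Finset (Σ _ : ℕ, ℕ × ℕ) := PP.sigma (fun l => sft a b c1 L M l n) with hTr
  have hcard : Tr.card = ∑ l ∈ PP, (sft a b c1 L M l n).card := Finset.card_sigma _ _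
  rw [← hcard]
  have hone : ∀ σ : (Σ _ : ℕ, ℕ × ℕ), ∃ t : ℕ, ∃ w : ℤ, σ ∈ Tr → (Box a b c1 σ.1 σ.2.1 σ.2.2 w L ∧
      t ∈ goodSet a b c1 C N ∧ ((t : ℤ) = xx a b c1 σ.1 σ.2.1 σ.2.2 w ∨
        (t : ℤ) = xx a b c1 σ.1 σ.2.1 σ.2.2 w + kk a b c1 σ.1 σ.2.1 ∨
        (t : ℤ) = xx a b c1 σ.1 σ.2.1 σ.2.2 w + nn a b c1 σ.2.2 w)) := by
    intro σ
    by_cases hσ : σ ∈ Tr
    · have h1 := hσ
      rw [hTr, Finset.mem_sigma, hPP, mem_filter, Finset.mem_Ioc] at h1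
      obtain ⟨t, w, h⟩ := one_point a b c1 T k0 m0 ha hk0d hm0d hk0 hc1 hm0 hT L M x n N B C hM hL hB hN hC
        hC2 hz σ.1 h1.1.2.1 h1.1.2.2 h1.1.1.2 σ.2 h1.2
      exact ⟨t, w, fun _ => h⟩
    · exact ⟨0, 0, fun h => absurd h hσ⟩
  choose τ w hτ using hone
  apply Finset.card_le_mul_card_image_of_maps_to (f := τ) (fun σ hσ => (hτ σ hσ).2.1)
  intro t ht
  have hft : 0 < ff a b c1 t ∧ cardFactors (ff a b c1 t).natAbs ≤ C := by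
    unfold goodSet at ht
    rw [mem_filter] at ht
    exact ⟨ht.2.1, ht.2.2.1⟩
  have hft0 : (ff a b c1 t).natAbs ≠ 0 := Int.natAbs_ne_zero.2 hft.1.ne'
  have hdivc : (ff a b c1 t).natAbs.divisors.card ≤ 2 ^ C :=
    (card_divisors_le_two_pow _ hft0).trans (Nat.pow_le_pow_right (by norm_num) hft.2)
  -- uniqueness
  have huniq : ∀ σ ∈ Tr, ∀ σ' ∈ Tr,
      kk a b c1 σ.1 σ.2.1 = kk a b c1 σ'.1 σ'.2.1 →
      xx a b c1 σ.1 σ.2.1 σ.2.2 (w σ) = xx a b c1 σ'.1 σ'.2.1 σ'.2.2 (w σ') → σ = σ' := by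
    intro σ hσ σ' hσ' hk hx
    have h1 := hσ
    have h2 := hσ'
    rw [hTr, Finset.mem_sigma, hPP, mem_filter, Finset.mem_Ioc] at h1 h2
    have := Box.unique (Y := 2 * (x : ℤ)) (hτ σ hσ).1 (hτ σ' hσ').1 hk hx
      (by exact_mod_cast h1.1.1.2) (by exact_mod_cast h2.1.1.2)
      (by have := h1.1.1.1; have : (x : ℤ) < σ.1 := by exact_mod_cast this
          linarith)
      (Nat.prime_iff_prime_int.1 h1.1.2.1) (Nat.prime_iff_prime_int.1 h2.1.2.1)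
    obtain ⟨e1, e2, e3⟩ := this
    have f1 : σ.1 = σ'.1 := by exact_mod_cast e1
    have f2 : σ.2.1 = σ'.2.1 := by exact_mod_cast e2
    have f3 : σ.2.2 = σ'.2.2 := by exact_mod_cast e3
    have f4 : σ.2 = σ'.2 := Prod.ext f2 f3
    exact Sigma.ext f1 (heq_of_eq f4)
  set F := Tr.filter (fun σ => τ σ = t) with hF
  have hsub : F ⊆ (F.filter (fun σ => (t : ℤ) = xx a b c1 σ.1 σ.2.1 σ.2.2 (w σ))) ∪
      ((F.filter (fun σ => (t : ℤ) = xx a b c1 σ.1 σ.2.1 σ.2.2 (w σ) + kk a b c1 σ.1 σ.2.1)) ∪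
      (F.filter (fun σ => (t : ℤ) = xx a b c1 σ.1 σ.2.1 σ.2.2 (w σ) + nn a b c1 σ.2.2 (w σ)))) := by
    intro σ hσ
    have h1 := hσ
    rw [hF, mem_filter] at h1
    have h2 := (hτ σ h1.1).2.2
    rw [h1.2] at h2
    rcases h2 with h | h | h
    · exact mem_union_left _ (mem_filter.2 ⟨hσ, h⟩)
    · exact mem_union_right _ (mem_union_left _ (mem_filter.2 ⟨hσ, h⟩))
    · exact mem_union_right _ (mem_union_right _ (mem_filter.2 ⟨hσ, h⟩))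
  have c1' : (F.filter (fun σ => (t : ℤ) = xx a b c1 σ.1 σ.2.1 σ.2.2 (w σ))).card ≤ 2 ^ C := by
    refine le_trans (Finset.card_le_card_of_injOn (t := (ff a b c1 t).natAbs.divisors)
      (fun σ => (kk a b c1 σ.1 σ.2.1).natAbs) ?_ ?_) hdivc
    · intro σ hσ
      rw [mem_coe, mem_filter, hF, mem_filter] at hσ
      rw [mem_coe, Nat.mem_divisors]
      refine ⟨?_, hft0⟩
      rw [Int.natAbs_dvd_natAbs, hσ.2, id1 a b c1 _ _ _ _ (hτ σ hσ.1.1).1.h]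
      exact ⟨a * nn a b c1 σ.2.2 (w σ), by ring⟩
    · intro σ hσ σ' hσ' h
      rw [mem_coe, mem_filter, hF, mem_filter] at hσ hσ'
      have p1 := (hτ σ hσ.1.1).1.k_pos
      have p2 := (hτ σ' hσ'.1.1).1.k_pos
      have h' : kk a b c1 σ.1 σ.2.1 = kk a b c1 σ'.1 σ'.2.1 := by
        simp only at h
        omega
      exact huniq σ hσ.1.1 σ' hσ'.1.1 h' (by rw [← hσ.2, hσ'.2])
  have c2' : (F.filter (fun σ => (t : ℤ) = xx a b c1 σ.1 σ.2.1 σ.2.2 (w σ) + kk a b c1 σ.1 σ.2.1)).card ≤ 2 ^ C := by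
    refine le_trans (Finset.card_le_card_of_injOn (t := (ff a b c1 t).natAbs.divisors)
      (fun σ => (kk a b c1 σ.1 σ.2.1).natAbs) ?_ ?_) hdivc
    · intro σ hσ
      rw [mem_coe, mem_filter, hF, mem_filter] at hσ
      rw [mem_coe, Nat.mem_divisors]
      refine ⟨?_, hft0⟩
      rw [Int.natAbs_dvd_natAbs, hσ.2, id2 a b c1 _ _ _ _ (hτ σ hσ.1.1).1.h]
      exact Dvd.intro _ rfl
    · intro σ hσ σ' hσ' h
      rw [mem_coe, mem_filter, hF, mem_filter] at hσ hσ'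
      have p1 := (hτ σ hσ.1.1).1.k_pos
      have p2 := (hτ σ' hσ'.1.1).1.k_pos
      have h' : kk a b c1 σ.1 σ.2.1 = kk a b c1 σ'.1 σ'.2.1 := by
        simp only at h
        omega
      exact huniq σ hσ.1.1 σ' hσ'.1.1 h' (by have := hσ.2; have := hσ'.2; linarith)
  have c3' : (F.filter (fun σ => (t : ℤ) = xx a b c1 σ.1 σ.2.1 σ.2.2 (w σ) + nn a b c1 σ.2.2 (w σ))).card ≤ 2 ^ C := by
    refine le_trans (Finset.card_le_card_of_injOn (t := (ff a b c1 t).natAbs.divisors)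
      (fun σ => (nn a b c1 σ.2.2 (w σ)).natAbs) ?_ ?_) hdivc
    · intro σ hσ
      rw [mem_coe, mem_filter, hF, mem_filter] at hσ
      rw [mem_coe, Nat.mem_divisors]
      refine ⟨?_, hft0⟩
      rw [Int.natAbs_dvd_natAbs, hσ.2, id3 a b c1 _ _ _ _ (hτ σ hσ.1.1).1.h]
      exact Dvd.intro _ rfl
    · intro σ hσ σ' hσ' h
      rw [mem_coe, mem_filter, hF, mem_filter] at hσ hσ'
      have p1 := (hτ σ hσ.1.1).1.n_pos
      have p2 := (hτ σ' hσ'.1.1).1.n_pos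
      have h' : nn a b c1 σ.2.2 (w σ) = nn a b c1 σ'.2.2 (w σ') := by
        simp only at h
        omega
      have hx' : xx a b c1 σ.1 σ.2.1 σ.2.2 (w σ) = xx a b c1 σ'.1 σ'.2.1 σ'.2.2 (w σ') := by
        have := hσ.2; have := hσ'.2; linarith
      have i1 := id1 a b c1 _ _ _ _ (hτ σ hσ.1.1).1.h
      have i2 := id1 a b c1 _ _ _ _ (hτ σ' hσ'.1.1).1.h
      rw [← hx', i1, ← h'] at i2
      have h3 : kk a b c1 σ.1 σ.2.1 = kk a b c1 σ'.1 σ'.2.1 := by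
        have h4 : a * nn a b c1 σ.2.2 (w σ) ≠ 0 := mul_ne_zero (by linarith) p1.ne'
        apply mul_left_cancel₀ h4
        linear_combination i2
      exact huniq σ hσ.1.1 σ' hσ'.1.1 h3 hx'
  calc F.card ≤ _ := Finset.card_le_card hsub
    _ ≤ _ + (_ + _) := (Finset.card_union_le _ _).trans (Nat.add_le_add_left (Finset.card_union_le _ _) _)
    _ ≤ 3 * 2 ^ C := by omega

end Pool.Agent.Lib.MP_a17b09_nt.BP
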