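import Mathlib
import Pool.Agent.Lib.MP_a17b09_nt.BP.Asym

/-!
Final assembly.
-/

set_option autoImplicit false

namespace Pool.Agent.Lib.MP_a17b09_nt.BP

open ArithmeticFunction Finset Filter Topology

theorem nonzero_facts (a b c1 : ℤ) (hD : ¬ IsSquare (b ^ 2 - 4 * a * (a * c1))) :
    c1 ≠ 0 ∧ 1 + b + a ^ 2 * c1 ≠ 0 ∧ a + b * (a + 1) + a * c1 * (a + 1) ^ 2 ≠ 0 := by
  refine ⟨?_, ?_, ?_⟩
  · rintro rfl
    exact hD ⟨b, by ring⟩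
  · intro h
    apply hD
    refine ⟨b + 2, ?_⟩
    linear_combination (-4) * h
  · intro h
    apply hD
    refine ⟨2 * a * c1 * (a + 1) + b, ?_⟩
    linear_combination (-(4 * a * c1)) * h

theorem sq_le_four (x : ℕ) (h : 1 ≤ x) : (x + 1) ^ 2 ≤ 4 * x ^ 2 := by nlinarith

theorem main' (a b c1 : ℤ) (ha : 0 < a) (hD : ¬ IsSquare (b ^ 2 - 4 * a * (a * c1))) :
    ∃ C : ℕ, 0 < C ∧ ∃ κ : ℝ, 0 < κ ∧ ∃ N1 : ℕ, ∀ N : ℕ, N1 ≤ N →
      κ * ((N : ℝ) / (Real.log N) ^ 8) ≤ ((goodSet a b c1 C N).card : ℝ) := by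
  classical
  obtain ⟨hc1, hk0', hm0'⟩ := nonzero_facts a b c1 hD
  obtain ⟨k0, hk0d⟩ : ∃ k0 : ℤ, k0 = 1 + b + a ^ 2 * c1 := ⟨_, rfl⟩
  obtain ⟨m0, hm0d⟩ : ∃ m0 : ℤ, m0 = a + b * (a + 1) + a * c1 * (a + 1) ^ 2 := ⟨_, rfl⟩
  rw [← hk0d] at hk0'
  rw [← hm0d] at hm0'
  obtain ⟨T, hT⟩ : ∃ T : ℤ, T = 30 * a * (k0 * c1 * m0) := ⟨_, rfl⟩
  have hT0 : T ≠ 0 := by
    rw [hT]
    exact mul_ne_zero (by positivity) (mul_ne_zero (mul_ne_zero hk0' hc1) hm0')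
  have ha1 : 1 ≤ a := ha
  obtain ⟨M, hMd⟩ : ∃ M : ℕ, M = (a ^ 2 * T ^ 2).natAbs := ⟨_, rfl⟩
  have hM : (M : ℤ) = a ^ 2 * T ^ 2 := by
    rw [hMd]; exact Int.natAbs_of_nonneg (by positivity)
  have hM0 : 0 < M := by
    rw [hMd]; exact Int.natAbs_pos.2 (mul_ne_zero (by positivity) (pow_ne_zero 2 hT0))
  obtain ⟨L, hLd⟩ : ∃ L : ℕ, L = (4 * (|b| + |c1| + 1) * a ^ 2 + 1).natAbs := ⟨_, rfl⟩
  have hL : (L : ℤ) = 4 * (|b| + |c1| + 1) * a ^ 2 + 1 := by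
    rw [hLd]; exact Int.natAbs_of_nonneg (by positivity)
  obtain ⟨C0, hC0d⟩ : ∃ C0 : ℕ, C0 = (2 * a ^ 2 * (1 + |b| + |c1|) * (((L : ℤ) + 1) ^ 2 * 2) ^ 2).natAbs :=
    ⟨_, rfl⟩
  have hC0 : (C0 : ℤ) = 2 * a ^ 2 * (1 + |b| + |c1|) * (((L : ℤ) + 1) ^ 2 * 2) ^ 2 := by
    rw [hC0d]; exact Int.natAbs_of_nonneg (by positivity)
  have hC0pos : 0 < C0 := by
    have : (0 : ℤ) < C0 := by rw [hC0]; positivity
    exact_mod_cast this
  obtain ⟨C1, hC1d⟩ : ∃ C1 : ℕ, C1 = (5 * a ^ 3 * (1 + |b| + |c1|) * (((L : ℤ) + 1) ^ 2 * 2) ^ 2).natAbs :=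
    ⟨_, rfl⟩
  have hC1 : (C1 : ℤ) = 5 * a ^ 3 * (1 + |b| + |c1|) * (((L : ℤ) + 1) ^ 2 * 2) ^ 2 := by
    rw [hC1d]; exact Int.natAbs_of_nonneg (by positivity)
  obtain ⟨N0, hN0⟩ := sifted_lower stmtA stmtB
  obtain ⟨x0, hx02, hx0⟩ := Pool.Agent.Lib.QuadThree.primes_dyadic M hM0 1 (Nat.coprime_one_left M)
  obtain ⟨l1, hl1⟩ := error_small M hM0
  obtain ⟨X1, hX13, hX1⟩ := choose_n N0 C0 C1
  obtain ⟨C, hC⟩ : ∃ C : ℕ, C = cardFactors a.natAbs + cardFactors k0.natAbs + cardFactors c1.natAbs +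
      cardFactors m0.natAbs + 3 * 1445 + (a.natAbs + k0.natAbs + c1.natAbs + m0.natAbs) := ⟨_, rfl⟩
  obtain ⟨φ, hφ⟩ : ∃ φ : ℝ, φ = (Nat.totient M : ℝ) := ⟨_, rfl⟩
  have hφ0 : 0 < φ := by rw [hφ]; exact_mod_cast Nat.totient_pos.2 hM0
  have hMr : (0 : ℝ) < M := by exact_mod_cast hM0
  have hC0r : (0 : ℝ) < C0 := by exact_mod_cast hC0pos
  refine ⟨C, by omega, 1 / (48 * C0 * φ * (M : ℝ) ^ 2 * 2 ^ C), by positivity,
    C0 * (X1 + x0 + l1 + M + 3) ^ 2, ?_⟩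
  intro N hN
  -- choice of x
  obtain ⟨x, hx⟩ : ∃ x : ℕ, x = Nat.sqrt (N / C0) := ⟨_, rfl⟩
  have hxlow : X1 + x0 + l1 + M + 3 ≤ x := by
    rw [hx, Nat.le_sqrt', Nat.le_div_iff_mul_le hC0pos]
    rw [mul_comm]; exact hN
  have hxup : C0 * x ^ 2 ≤ N := by
    have h1 : x ^ 2 ≤ N / C0 := by rw [hx]; exact Nat.sqrt_le' _
    calc C0 * x ^ 2 ≤ C0 * (N / C0) := Nat.mul_le_mul_left _ h1
      _ ≤ N := Nat.mul_div_le N C0
  have hNup : N < C0 * (4 * x ^ 2) := by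
    have h1 : N / C0 < (x + 1) ^ 2 := by
      have := Nat.lt_succ_sqrt' (N / C0)
      rw [hx]; exact this
    have h2 : N < (x + 1) ^ 2 * C0 := (Nat.div_lt_iff_lt_mul hC0pos).1 h1
    have h3 : (x + 1) ^ 2 ≤ 4 * x ^ 2 := sq_le_four x (by omega)
    calc N < (x + 1) ^ 2 * C0 := h2
      _ ≤ (4 * x ^ 2) * C0 := Nat.mul_le_mul_right _ h3
      _ = _ := by ring
  obtain ⟨n, hn0, hn1, hn2, hn3, hn4, hn5⟩ := hX1 x (by omega)
  obtain ⟨z, hz⟩ : ∃ z : ℕ, z = 2 ^ n := ⟨_, rfl⟩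
  rw [← hz] at hn1 hn2 hn4 hn5
  have hz1 : 1 ≤ z := by rw [hz]; exact Nat.one_le_two_pow
  have hx2 : x ^ 2 < 2 ^ (1444 * z) := by
    calc x ^ 2 < (2 ^ (722 * z)) ^ 2 := Nat.pow_lt_pow_left hn2 (by norm_num)
      _ = 2 ^ (1444 * z) := by rw [← pow_mul]; congr 1; ring
  -- hypotheses of count_main
  have hB : 5 * a ^ 3 * (1 + |b| + |c1|) * (((L : ℤ) + 1) ^ 2 * (2 * x)) ^ 2 <
      ((2 ^ (2 ^ n)) ^ (1445 + 1) : ℕ) := by
    have e1 : 5 * a ^ 3 * (1 + |b| + |c1|) * (((L : ℤ) + 1) ^ 2 * (2 * x)) ^ 2 =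
        ((C1 * x ^ 2 : ℕ) : ℤ) := by
      push_cast
      rw [hC1]; ring
    rw [e1, ← hz]
    have e2 : C1 * x ^ 2 < (2 ^ z) ^ (1445 + 1) := by
      calc C1 * x ^ 2 ≤ 2 ^ (2 * z) * x ^ 2 := Nat.mul_le_mul_right _ hn5
        _ < 2 ^ (2 * z) * 2 ^ (1444 * z) := Nat.mul_lt_mul_of_pos_left hx2 (by positivity)
        _ = (2 ^ z) ^ (1445 + 1) := by rw [← pow_add, ← pow_mul]; congr 1; ring
    exact_mod_cast e2
  have hNN : 2 * a ^ 2 * (1 + |b| + |c1|) * (((L : ℤ) + 1) ^ 2 * (2 * x)) ^ 2 ≤ (N : ℤ) := by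
    have e1 : 2 * a ^ 2 * (1 + |b| + |c1|) * (((L : ℤ) + 1) ^ 2 * (2 * x)) ^ 2 =
        ((C0 * x ^ 2 : ℕ) : ℤ) := by
      push_cast
      rw [hC0]; ring
    rw [e1]
    exact_mod_cast hxup
  have hCpos : (0 : ℝ) < C := by
    have : 0 < C := by omega
    exact_mod_cast this
  have hzz : (N : ℝ) ^ (1 / (C : ℝ)) ≤ (2 : ℝ) ^ (2 ^ n) := by
    have e1 : N ≤ (2 ^ z) ^ C := by
      have e2 : N < (2 ^ z) ^ 1446 := by
        calc N < C0 * (4 * x ^ 2) := hNup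
          _ = (4 * C0) * x ^ 2 := by ring
          _ ≤ 2 ^ (2 * z) * x ^ 2 := Nat.mul_le_mul_right _ hn4
          _ < 2 ^ (2 * z) * 2 ^ (1444 * z) := Nat.mul_lt_mul_of_pos_left hx2 (by positivity)
          _ = (2 ^ z) ^ 1446 := by rw [← pow_add, ← pow_mul]; congr 1; ring
      exact e2.le.trans (Nat.pow_le_pow_right Nat.one_le_two_pow (by omega))
    have e2 : (N : ℝ) ≤ ((2 : ℝ) ^ z) ^ C := by exact_mod_cast e1
    rw [← hz]
    calc (N : ℝ) ^ (1 / (C : ℝ)) ≤ (((2 : ℝ) ^ z) ^ C) ^ (1 / (C : ℝ)) :=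
          Real.rpow_le_rpow (by positivity) e2 (by positivity)
      _ = (2 : ℝ) ^ z := by
          rw [one_div]
          exact Real.pow_rpow_inv_natCast (by positivity) (by omega)
  have hcount := count_main a b c1 T k0 m0 ha1 hk0d hm0d hk0' hc1 hm0' hT L M x n N 1445 C hM hL.ge
    hB hNN (by omega) (by omega) hzz
  -- lower bound for the number of points
  have hx3 : (3 : ℝ) ≤ x := by exact_mod_cast (by omega : 3 ≤ x)
  have hxpos : (0 : ℝ) < x := by linarith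
  have hlogx : 1 ≤ Real.log x := by
    rw [Real.le_log_iff_exp_le hxpos]
    have := Real.exp_one_lt_d9
    linarith
  have hsft : ∀ l ∈ (Finset.Ioc x (2 * x)).filter (fun p => p.Prime ∧ p ≡ 1 [MOD M]),
      (x : ℝ) / (2 * (M : ℝ) ^ 2 * (Real.log x) ^ 7) ≤ ((sft a b c1 L M l n).card : ℝ) := by
    intro l hl
    rw [mem_filter, Finset.mem_Ioc] at hl
    obtain ⟨⟨hl2, hl3⟩, hlp, hlm⟩ := hl
    have hlr : (x : ℝ) ≤ l := by exact_mod_cast hl2.le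
    have hlpos : (0 : ℝ) < l := by linarith
    have h1 := hN0 n hn0 a b c1 L M l hM0 (by
        intro q hq hqa
        have h2 : (q : ℤ) ∣ (M : ℤ) := by
          rw [hM]
          exact (hqa.mul_right a |>.trans (by rw [sq])).mul_right _
        exact_mod_cast h2) hlp (by
        intro h
        have := Nat.le_of_dvd hM0 h
        omega) (by
        rw [← hz]
        have : 2 ^ z ≤ 2 ^ (361 * z) := Nat.pow_le_pow_right (by norm_num) (by omega)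
        omega)
    have h2 := hl1 l n (by omega) (by rw [← hz]; omega) (by
      refine hn3.trans ?_
      exact Real.log_le_log hxpos hlr)
    have h3 : (2 : ℝ) ^ (7 * n) ≤ (Real.log x) ^ 7 := by
      rw [mul_comm, pow_mul]
      exact pow_le_pow_left₀ (by positivity) hn3 7
    have h4 : (l : ℝ) / (2 * (M : ℝ) ^ 2) ≤ 2 ^ (7 * n) * ((sft a b c1 L M l n).card : ℝ) := by
      have h5 : (l : ℝ) / (M : ℝ) ^ 2 = l / (2 * (M : ℝ) ^ 2) + l / (2 * (M : ℝ) ^ 2) := by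
        field_simp; ring
      rw [h5, mul_add] at h1
      linarith
    have h6 : (x : ℝ) / (2 * (M : ℝ) ^ 2) ≤ (Real.log x) ^ 7 * ((sft a b c1 L M l n).card : ℝ) := by
      calc (x : ℝ) / (2 * (M : ℝ) ^ 2) ≤ (l : ℝ) / (2 * (M : ℝ) ^ 2) := by gcongr
        _ ≤ 2 ^ (7 * n) * ((sft a b c1 L M l n).card : ℝ) := h4
        _ ≤ _ := mul_le_mul_of_nonneg_right h3 (by positivity)
    rw [div_le_iff₀ (by positivity)] at h6 ⊢
    calc (x : ℝ) ≤ _ := h6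
      _ = _ := by ring
  have hprimes := hx0 x (by omega)
  rw [← hφ] at hprimes
  have hsum : (x : ℝ) / (2 * φ * Real.log x) * ((x : ℝ) / (2 * (M : ℝ) ^ 2 * (Real.log x) ^ 7)) ≤
      (3 * 2 ^ C) * ((goodSet a b c1 C N).card : ℝ) := by
    have h1 : ((∑ l ∈ (Finset.Ioc x (2 * x)).filter (fun p => p.Prime ∧ p ≡ 1 [MOD M]),
      (sft a b c1 L M l n).card : ℕ) : ℝ) ≤ (3 * 2 ^ C) * ((goodSet a b c1 C N).card : ℝ) := by
      exact_mod_cast hcount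
    refine le_trans ?_ h1
    push_cast
    calc _ ≤ (((Finset.Ioc x (2 * x)).filter (fun p => p.Prime ∧ p ≡ 1 [MOD M])).card : ℝ) *
        ((x : ℝ) / (2 * (M : ℝ) ^ 2 * (Real.log x) ^ 7)) :=
          mul_le_mul_of_nonneg_right hprimes (by positivity)
      _ = ∑ l ∈ (Finset.Ioc x (2 * x)).filter (fun p => p.Prime ∧ p ≡ 1 [MOD M]),
          ((x : ℝ) / (2 * (M : ℝ) ^ 2 * (Real.log x) ^ 7)) := by
          rw [Finset.sum_const, nsmul_eq_mul]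
      _ ≤ _ := Finset.sum_le_sum hsft
  have hNr : (N : ℝ) ≤ 4 * C0 * (x : ℝ) ^ 2 := by
    have : N ≤ 4 * C0 * x ^ 2 := by
      have := hNup.le
      calc N ≤ C0 * (4 * x ^ 2) := this
        _ = _ := by ring
    exact_mod_cast this
  have hxN : x ≤ N := by
    have h1 : 1 ≤ x := by omega
    calc x ≤ x ^ 2 := Nat.le_self_pow two_ne_zero x
      _ ≤ C0 * x ^ 2 := Nat.le_mul_of_pos_left _ hC0pos
      _ ≤ N := hxup
  have hlogN : Real.log x ≤ Real.log N := Real.log_le_log hxpos (by exact_mod_cast hxN)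
  have h8 : (Real.log x) ^ 8 ≤ (Real.log N) ^ 8 := pow_le_pow_left₀ (by linarith) hlogN 8
  calc 1 / (48 * C0 * φ * (M : ℝ) ^ 2 * 2 ^ C) * ((N : ℝ) / (Real.log N) ^ 8) ≤
      1 / (48 * C0 * φ * (M : ℝ) ^ 2 * 2 ^ C) * ((4 * C0 * (x : ℝ) ^ 2) / (Real.log x) ^ 8) := by
        apply mul_le_mul_of_nonneg_left _ (by positivity)
        have h9 : 0 < (Real.log x) ^ 8 := by positivity
        exact div_le_div₀ (by positivity) hNr h9 h8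
    _ = ((x : ℝ) / (2 * φ * Real.log x) * ((x : ℝ) / (2 * (M : ℝ) ^ 2 * (Real.log x) ^ 7))) / (3 * 2 ^ C) := by
        field_simp
        norm_num
    _ ≤ ((goodSet a b c1 C N).card : ℝ) := by
        rw [div_le_iff₀ (by positivity)]
        linarith

end Pool.Agent.Lib.MP_a17b09_nt.BP
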