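import Mathlib
import Pool.Agent.Lib.MP_a17b09_nt.BP.Final

/-!
Let `f(t) = a t^2 + b t + c` with `a > 0`, `a` and `b` coprime and `b^2 - 4 a c` not a square.
For at least `κ N / (log N)^8` of the `t ≤ N` the value `f(t)` is positive, has at most `C` prime
factors, their number has the parity of `Ω(a)`, and every prime factor is at most `C` or larger
than `N^(1/C)`.
-/

set_option autoImplicit false

namespace Pool.Agent.Lib.MP_a17b09_nt.BP

open ArithmeticFunction Finset Filter Topology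

theorem general (a b c : ℤ) (ha : 0 < a) (hab : IsCoprime a b)
    (hD : ¬ IsSquare (b ^ 2 - 4 * a * c)) :
    ∃ C : ℕ, 0 < C ∧ ∃ κ : ℝ, 0 < κ ∧ ∃ N₁ : ℕ, ∀ N : ℕ, N₁ ≤ N →
      ∃ S : Finset ℕ, κ * ((N : ℝ) / (Real.log N) ^ 8) ≤ (S.card : ℝ) ∧
      ∀ t ∈ S, 1 ≤ t ∧ t ≤ N ∧ 0 < a * (t : ℤ) ^ 2 + b * (t : ℤ) + c ∧
        cardFactors (a * (t : ℤ) ^ 2 + b * (t : ℤ) + c).natAbs ≤ C ∧
        cardFactors (a * (t : ℤ) ^ 2 + b * (t : ℤ) + c).natAbs ≡ cardFactors a.natAbs [MOD 2] ∧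
        ∀ p : ℕ, p.Prime → (p : ℤ) ∣ a * (t : ℤ) ^ 2 + b * (t : ℤ) + c →
          p ≤ C ∨ (N : ℝ) ^ (1 / (C : ℝ)) < p := by
  classical
  -- a shift with a | f(r)
  obtain ⟨r, c1, hr⟩ : ∃ (r : ℕ) (c1 : ℤ), a * (r : ℤ) ^ 2 + b * r + c = a * c1 := by
    obtain ⟨x, y, hxy⟩ := hab
    -- x a + y b = 1, r = -c y mod a
    refine ⟨((-(c * y)) % a).toNat, ?_⟩
    have h1 : (((-(c * y)) % a).toNat : ℤ) = (-(c * y)) % a :=
      Int.toNat_of_nonneg (Int.emod_nonneg _ ha.ne')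
    rw [h1]
    obtain ⟨q, hq⟩ : ∃ q : ℤ, (-(c * y)) % a = -(c * y) - a * q :=
      ⟨(-(c * y)) / a, by have := Int.emod_add_mul_ediv (-(c * y)) a; linarith⟩
    rw [hq]
    refine ⟨(-(c * y) - a * q) ^ 2 - b * q + c * x, ?_⟩
    linear_combination (-c) * hxy
  have hD' : ¬ IsSquare ((b + 2 * a * r) ^ 2 - 4 * a * (a * c1)) := by
    intro h
    apply hD
    have e : (b + 2 * a * r) ^ 2 - 4 * a * (a * c1) = b ^ 2 - 4 * a * c := by
      rw [← hr]; ring
    rwa [e] at h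
  obtain ⟨C, hC0, κ, hκ, N1, hN1⟩ := main' a (b + 2 * a * r) c1 ha hD'
  refine ⟨2 * C, by omega, κ / 2, by positivity, N1 + 4 * r + 4, ?_⟩
  intro N hN
  have h1 := hN1 (N - r) (by omega)
  refine ⟨(goodSet a (b + 2 * a * r) c1 C (N - r)).image (fun t => t + r), ?_, ?_⟩
  · rw [Finset.card_image_of_injective _ (fun x y h => by simpa using h)]
    refine le_trans ?_ h1
    have hcast : ((N - r : ℕ) : ℝ) = (N : ℝ) - r := by
      rw [Nat.cast_sub (by omega)]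
    have hN2 : (4 : ℝ) * r + 4 ≤ N := by exact_mod_cast (by omega : 4 * r + 4 ≤ N)
    have hr0 : (0 : ℝ) ≤ r := by positivity
    have h2 : (N : ℝ) / 2 ≤ ((N - r : ℕ) : ℝ) := by rw [hcast]; linarith
    have h3 : 1 < ((N - r : ℕ) : ℝ) := by rw [hcast]; linarith
    have h4 : 0 < Real.log ((N - r : ℕ) : ℝ) := Real.log_pos h3
    have h5 : Real.log ((N - r : ℕ) : ℝ) ≤ Real.log N := by
      apply Real.log_le_log (by linarith)
      rw [hcast]; linarith
    have h6 : Real.log ((N - r : ℕ) : ℝ) ^ 8 ≤ Real.log N ^ 8 := pow_le_pow_left₀ h4.le h5 8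
    have h7 : 0 < Real.log ((N - r : ℕ) : ℝ) ^ 8 := by positivity
    calc κ / 2 * ((N : ℝ) / Real.log N ^ 8) = κ * (((N : ℝ) / 2) / Real.log N ^ 8) := by ring
      _ ≤ κ * (((N - r : ℕ) : ℝ) / Real.log ((N - r : ℕ) : ℝ) ^ 8) := by
          apply mul_le_mul_of_nonneg_left _ hκ.le
          exact div_le_div₀ (by linarith) h2 h7 h6
  · intro t ht
    rw [mem_image] at ht
    obtain ⟨s, hs, rfl⟩ := ht
    unfold goodSet at hs
    rw [mem_filter, Finset.mem_Icc] at hs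
    obtain ⟨⟨s1, s2⟩, s3, s4, s5, s6⟩ := hs
    have e : a * (((s + r : ℕ)) : ℤ) ^ 2 + b * ((s + r : ℕ) : ℤ) + c = ff a (b + 2 * a * r) c1 s := by
      unfold ff
      push_cast
      rw [← hr]; ring
    rw [e]
    refine ⟨by omega, by omega, s3, by omega, s5, ?_⟩
    intro p hp hpd
    rcases s6 p hp hpd with h | h
    · left; omega
    · right
      refine lt_of_le_of_lt ?_ h
      have hcast : ((N - r : ℕ) : ℝ) = (N : ℝ) - r := by
        rw [Nat.cast_sub (by omega)]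
      have hN2 : (4 : ℝ) * r + 4 ≤ N := by exact_mod_cast (by omega : 4 * r + 4 ≤ N)
      have hr0 : (0 : ℝ) ≤ r := by positivity
      have hle : (N : ℝ) ≤ ((N - r : ℕ) : ℝ) ^ 2 := by
        rw [hcast]; nlinarith
      have hCr : (0 : ℝ) < C := by exact_mod_cast hC0
      calc (N : ℝ) ^ (1 / ((2 * C : ℕ) : ℝ)) ≤ (((N - r : ℕ) : ℝ) ^ 2) ^ (1 / ((2 * C : ℕ) : ℝ)) :=
            Real.rpow_le_rpow (by positivity) hle (by positivity)
        _ = ((N - r : ℕ) : ℝ) ^ (1 / (C : ℝ)) := by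
            rw [← Real.rpow_natCast, ← Real.rpow_mul (by positivity)]
            congr 1
            push_cast
            field_simp

end Pool.Agent.Lib.MP_a17b09_nt.BP
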